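import Mathlib

set_option autoImplicit false

open Finset

namespace Pool.Agent.Davie

/-- `ee t = exp (2 π i t)`. -/
noncomputable def ee (t : ℝ) : ℂ := Complex.exp (2 * Real.pi * Complex.I * t)

lemma ee_zero : ee 0 = 1 := by simp [ee]

lemma ee_add (s t : ℝ) : ee (s + t) = ee s * ee t := by
  unfold ee
  rw [← Complex.exp_add]
  congr 1
  push_cast
  ring

lemma ee_int (k : ℤ) : ee (k : ℝ) = 1 := by
  unfold ee
  have h := Complex.exp_int_mul_two_pi_mul_I k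
  rw [← h]
  congr 1
  push_cast
  ring

lemma norm_ee (t : ℝ) : ‖ee t‖ = 1 := by
  unfold ee
  rw [show (2 * Real.pi * Complex.I * t : ℂ) = ((2 * Real.pi * t : ℝ) : ℂ) * Complex.I by
    push_cast; ring]
  exact Complex.norm_exp_ofReal_mul_I _

lemma conj_ee (t : ℝ) : (starRingEnd ℂ) (ee t) = ee (-t) := by
  unfold ee
  rw [← Complex.exp_conj]
  congr 1
  simp only [map_mul, Complex.conj_ofReal, Complex.conj_I, map_ofNat]
  push_cast
  ring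

lemma ee_ne_zero (t : ℝ) : ee t ≠ 0 := Complex.exp_ne_zero _

/-- sum over `ZMod N` as a sum over `range N`. -/
lemma sum_zmod_eq_sum_range (N : ℕ) [NeZero N] (f : ZMod N → ℂ) :
    ∑ x : ZMod N, f x = ∑ x ∈ range N, f (x : ZMod N) := by
  symm
  refine Finset.sum_bij' (fun x _ => (x : ZMod N)) (fun x _ => x.val) ?_ ?_ ?_ ?_ ?_
  · intro a _; exact Finset.mem_univ _
  · intro a _; exact Finset.mem_range.2 (ZMod.val_lt a)
  · intro a ha
    exact ZMod.val_cast_of_lt (Finset.mem_range.1 ha)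
  · intro a _
    exact ZMod.natCast_zmod_val a
  · intro a _; rfl

lemma ee_div_eq_stdAddChar (N : ℕ) [NeZero N] (j : ℤ) :
    ee ((j : ℝ) / N) = ZMod.stdAddChar (j : ZMod N) := by
  rw [ZMod.stdAddChar_coe]
  unfold ee
  congr 1
  push_cast
  ring

/-- number of solutions of `k h = 0` in `ZMod N`. -/
lemma card_filter_mul_eq_zero (N : ℕ) [NeZero N] (k : ℤ) (hk : k ≠ 0) :
    (univ.filter (fun h : ZMod N => (k : ZMod N) * h = 0)).card ≤ k.natAbs := by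
  have hN : 0 < N := Nat.pos_of_ne_zero (NeZero.ne N)
  have hkpos : 0 < k.natAbs := Int.natAbs_pos.2 hk
  -- injection h ↦ (k.natAbs * h.val) / N
  have key : ∀ h : ZMod N, (k : ZMod N) * h = 0 → N ∣ k.natAbs * h.val := by
    intro h hh
    have h1 : ((k * (h.val : ℤ) : ℤ) : ZMod N) = 0 := by
      push_cast
      rw [ZMod.natCast_zmod_val]
      exact hh
    rw [ZMod.intCast_zmod_eq_zero_iff_dvd] at h1
    have h2 : (N : ℤ).natAbs ∣ (k * (h.val : ℤ)).natAbs := Int.natAbs_dvd_natAbs.2 h1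
    rwa [Int.natAbs_mul, Int.natAbs_natCast, Int.natAbs_natCast] at h2
  calc (univ.filter (fun h : ZMod N => (k : ZMod N) * h = 0)).card
      ≤ (range k.natAbs).card := by
        refine Finset.card_le_card_of_injOn (fun h => (k.natAbs * h.val) / N) ?_ ?_
        · intro h _
          simp only [Finset.coe_range, Set.mem_Iio]
          rw [Nat.div_lt_iff_lt_mul hN]
          exact Nat.mul_lt_mul_of_pos_left (ZMod.val_lt h) hkpos
        · intro a ha b hb hab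
          simp only [Finset.coe_filter, Finset.mem_univ, true_and, Set.mem_ofPred_eq] at ha hb
          have h1 := Nat.div_mul_cancel (key a ha)
          have h2 := Nat.div_mul_cancel (key b hb)
          simp only at hab
          rw [hab, h2] at h1
          have h3 : a.val = b.val := (Nat.eq_of_mul_eq_mul_left hkpos h1).symm
          exact ZMod.val_injective N h3
    _ = k.natAbs := Finset.card_range _

/-- Weyl differencing bound for quadratic exponential sums. -/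
lemma norm_sq_chirp_sum_le (N : ℕ) [NeZero N] (A B : ℤ) (hA : A ≠ 0) :
    ‖∑ x ∈ range N, ee (((A * x ^ 2 + B * x : ℤ) : ℝ) / N)‖ ^ 2 ≤ (2 * A).natAbs * N := by
  set ψ : AddChar (ZMod N) ℂ := ZMod.stdAddChar with hψ
  have hprim : ψ.IsPrimitive := ZMod.isPrimitive_stdAddChar N
  have hS : ∑ x ∈ range N, ee (((A * x ^ 2 + B * x : ℤ) : ℝ) / N)
      = ∑ x : ZMod N, ψ ((A : ZMod N) * x ^ 2 + (B : ZMod N) * x) := by
    rw [sum_zmod_eq_sum_range]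
    refine Finset.sum_congr rfl (fun x _ => ?_)
    rw [ee_div_eq_stdAddChar]
    push_cast
    rfl
  rw [hS]
  set S := ∑ x : ZMod N, ψ ((A : ZMod N) * x ^ 2 + (B : ZMod N) * x) with hSdef
  have hconj : ∀ z : ZMod N, (starRingEnd ℂ) (ψ z) = ψ (-z) := by
    intro z
    rw [AddChar.map_neg_eq_conj]
  have h1 : S * (starRingEnd ℂ) S
      = ∑ h : ZMod N, ψ ((A : ZMod N) * h ^ 2 + (B : ZMod N) * h)
          * ∑ y : ZMod N, ψ (y * (((2 * A : ℤ) : ZMod N) * h)) := by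
    rw [hSdef, map_sum, Finset.sum_mul_sum, Finset.sum_comm]
    have : ∀ y : ZMod N, ∑ x : ZMod N, ψ ((A : ZMod N) * x ^ 2 + (B : ZMod N) * x) *
        (starRingEnd ℂ) (ψ ((A : ZMod N) * y ^ 2 + (B : ZMod N) * y))
        = ∑ h : ZMod N, ψ ((A : ZMod N) * h ^ 2 + (B : ZMod N) * h)
          * ψ (y * (((2 * A : ℤ) : ZMod N) * h)) := by
      intro y
      rw [← Equiv.sum_comp (Equiv.addRight y)]
      refine Finset.sum_congr rfl (fun h _ => ?_)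
      rw [hconj, ← AddChar.map_add_eq_mul, ← AddChar.map_add_eq_mul]
      congr 1
      simp only [Equiv.coe_addRight]
      push_cast
      ring
    rw [Finset.sum_congr rfl (fun y _ => this y), Finset.sum_comm]
    refine Finset.sum_congr rfl (fun h _ => ?_)
    rw [Finset.mul_sum]
  have h2 : S * (starRingEnd ℂ) S = ((‖S‖ ^ 2 : ℝ) : ℂ) := by
    rw [Complex.mul_conj, Complex.normSq_eq_norm_sq]
  have h3 : ‖S‖ ^ 2 = ‖S * (starRingEnd ℂ) S‖ := by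
    rw [h2, Complex.norm_real, Real.norm_of_nonneg (by positivity)]
  rw [h3, h1]
  calc ‖∑ h : ZMod N, ψ ((A : ZMod N) * h ^ 2 + (B : ZMod N) * h)
          * ∑ y : ZMod N, ψ (y * (((2 * A : ℤ) : ZMod N) * h))‖
      ≤ ∑ h : ZMod N, ‖ψ ((A : ZMod N) * h ^ 2 + (B : ZMod N) * h)
          * ∑ y : ZMod N, ψ (y * (((2 * A : ℤ) : ZMod N) * h))‖ := norm_sum_le _ _
    _ = ∑ h : ZMod N, (if ((2 * A : ℤ) : ZMod N) * h = 0 then (N : ℝ) else 0) := by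
        refine Finset.sum_congr rfl (fun h _ => ?_)
        rw [norm_mul, AddChar.sum_mulShift _ hprim, AddChar.norm_apply, one_mul]
        split_ifs with h0
        · simp [ZMod.card]
        · simp
    _ = (univ.filter (fun h : ZMod N => ((2 * A : ℤ) : ZMod N) * h = 0)).card * N := by
        rw [← Finset.sum_filter, Finset.sum_const, nsmul_eq_mul]
    _ ≤ (2 * A).natAbs * N := by
        have := card_filter_mul_eq_zero N (2 * A) (by omega)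
        have h' : ((univ.filter (fun h : ZMod N => ((2 * A : ℤ) : ZMod N) * h = 0)).card : ℝ)
            ≤ ((2 * A).natAbs : ℝ) := by exact_mod_cast this
        exact mul_le_mul_of_nonneg_right h' (by positivity)

/-- the chirp vectors: `bb n a y x = 2^{-n/2} e((( 2a+1) x^2 + x y)/2^n)`. -/
noncomputable def bb (n a y x : ℕ) : ℂ :=
  ((Real.sqrt (2 ^ n))⁻¹ : ℝ) * ee ((((2 * a + 1) * x ^ 2 + x * y : ℤ) : ℝ) / ((2 ^ n : ℕ) : ℝ))

lemma sqrt_pow_pos (n : ℕ) : 0 < Real.sqrt (2 ^ n) := Real.sqrt_pos.2 (by positivity)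

lemma norm_bb (n a y x : ℕ) : ‖bb n a y x‖ = (Real.sqrt (2 ^ n))⁻¹ := by
  unfold bb
  rw [norm_mul, norm_ee, mul_one, Complex.norm_real, Real.norm_of_nonneg]
  exact inv_nonneg.2 (Real.sqrt_nonneg _)

/-- completeness relation of the chirp bases. -/
lemma bb_complete (n a x x' : ℕ) (hx : x < 2 ^ n) (hx' : x' < 2 ^ n) :
    ∑ y ∈ range (2 ^ n), bb n a y x * (starRingEnd ℂ) (bb n a y x')
      = if x = x' then 1 else 0 := by
  have hN : NeZero (2 ^ n) := ⟨by positivity⟩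
  have hterm : ∀ y ∈ range (2 ^ n), bb n a y x * (starRingEnd ℂ) (bb n a y x')
      = (((2 : ℝ) ^ n)⁻¹ : ℝ) * ee ((((2 * a + 1) * ((x : ℤ) ^ 2 - (x' : ℤ) ^ 2) : ℤ) : ℝ) / ((2 ^ n : ℕ) : ℝ))
        * ZMod.stdAddChar ((y : ZMod (2 ^ n)) * (((x : ℤ) - x' : ℤ) : ZMod (2 ^ n))) := by
    intro y _
    unfold bb
    rw [map_mul, conj_ee, Complex.conj_ofReal]
    have h2 : (ZMod.stdAddChar ((y : ZMod (2 ^ n)) * (((x : ℤ) - x' : ℤ) : ZMod (2 ^ n))) : ℂ)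
        = ee (((y * ((x : ℤ) - x') : ℤ) : ℝ) / ((2 ^ n : ℕ) : ℝ)) := by
      rw [ee_div_eq_stdAddChar]
      push_cast
      rfl
    rw [h2]
    have h3 : (((2 : ℝ) ^ n)⁻¹ : ℝ) = (Real.sqrt (2 ^ n))⁻¹ * (Real.sqrt (2 ^ n))⁻¹ := by
      rw [← mul_inv, Real.mul_self_sqrt (by positivity)]
    rw [h3]
    have h4 : ee ((((2 * a + 1) * x ^ 2 + x * y : ℤ) : ℝ) / ((2 ^ n : ℕ) : ℝ))
        * ee (-((((2 * a + 1) * x' ^ 2 + x' * y : ℤ) : ℝ) / ((2 ^ n : ℕ) : ℝ)))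
        = ee ((((2 * a + 1) * ((x : ℤ) ^ 2 - (x' : ℤ) ^ 2) : ℤ) : ℝ) / ((2 ^ n : ℕ) : ℝ))
          * ee (((y * ((x : ℤ) - x') : ℤ) : ℝ) / ((2 ^ n : ℕ) : ℝ)) := by
      rw [← ee_add, ← ee_add]
      congr 1
      push_cast
      ring
    push_cast at h4 ⊢
    linear_combination ((Real.sqrt (2 ^ n) : ℂ))⁻¹ * ((Real.sqrt (2 ^ n) : ℂ))⁻¹ * h4
  rw [Finset.sum_congr rfl hterm, ← Finset.mul_sum]
  have hsum : ∑ y ∈ range (2 ^ n),
      (ZMod.stdAddChar ((y : ZMod (2 ^ n)) * (((x : ℤ) - x' : ℤ) : ZMod (2 ^ n))) : ℂ)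
      = ((if (((x : ℤ) - x' : ℤ) : ZMod (2 ^ n)) = 0 then Fintype.card (ZMod (2 ^ n)) else 0 : ℕ) : ℂ) := by
    rw [← AddChar.sum_mulShift _ (ZMod.isPrimitive_stdAddChar (2 ^ n)),
      sum_zmod_eq_sum_range (2 ^ n)]
  rw [hsum]
  by_cases hxx : x = x'
  · subst hxx
    simp [ee_zero, ZMod.card]
  · have hne : (((x : ℤ) - x' : ℤ) : ZMod (2 ^ n)) ≠ 0 := by
      intro h0
      rw [ZMod.intCast_zmod_eq_zero_iff_dvd] at h0
      apply hxx
      have h1 : ((2 ^ n : ℕ) : ℤ) ∣ (x : ℤ) - x' := h0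
      have h2 : ((x : ℤ) - x').natAbs < (2 ^ n : ℕ) := by omega
      have h3 := Int.eq_zero_of_dvd_of_natAbs_lt_natAbs h1 (by simpa using h2)
      omega
    rw [if_neg hne, if_neg hxx]
    simp

/-- flatness between different chirp bases on the same level. -/
lemma bb_flat_same (n a a' y y' : ℕ) (ha : a < 3) (ha' : a' < 3) (hne : a ≠ a') :
    ‖∑ x ∈ range (2 ^ n), (starRingEnd ℂ) (bb n a' y' x) * bb n a y x‖
      ≤ 3 * (Real.sqrt (2 ^ n))⁻¹ := by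
  have hN : NeZero (2 ^ n) := ⟨by positivity⟩
  have hterm : ∀ x ∈ range (2 ^ n), (starRingEnd ℂ) (bb n a' y' x) * bb n a y x
      = (((2 : ℝ) ^ n)⁻¹ : ℝ) * ee (((((2 * (a : ℤ) - 2 * a') : ℤ) * (x : ℤ) ^ 2
        + ((y : ℤ) - y' : ℤ) * x : ℤ) : ℝ) / ((2 ^ n : ℕ) : ℝ)) := by
    intro x _
    unfold bb
    rw [map_mul, conj_ee, Complex.conj_ofReal]
    have h3 : (((2 : ℝ) ^ n)⁻¹ : ℝ) = (Real.sqrt (2 ^ n))⁻¹ * (Real.sqrt (2 ^ n))⁻¹ := by
      rw [← mul_inv, Real.mul_self_sqrt (by positivity)]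
    rw [h3]
    have h4 : ee (-((((2 * a' + 1) * x ^ 2 + x * y' : ℤ) : ℝ) / ((2 ^ n : ℕ) : ℝ)))
        * ee ((((2 * a + 1) * x ^ 2 + x * y : ℤ) : ℝ) / ((2 ^ n : ℕ) : ℝ))
        = ee (((((2 * (a : ℤ) - 2 * a') : ℤ) * (x : ℤ) ^ 2
        + ((y : ℤ) - y' : ℤ) * x : ℤ) : ℝ) / ((2 ^ n : ℕ) : ℝ)) := by
      rw [← ee_add]
      congr 1
      push_cast
      ring
    push_cast at h4 ⊢
    linear_combination ((Real.sqrt (2 ^ n) : ℂ))⁻¹ * ((Real.sqrt (2 ^ n) : ℂ))⁻¹ * h4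
  rw [Finset.sum_congr rfl hterm, ← Finset.mul_sum, norm_mul, Complex.norm_real,
    Real.norm_of_nonneg (by positivity)]
  have hA : (2 * (a : ℤ) - 2 * a') ≠ 0 := by omega
  have hb := norm_sq_chirp_sum_le (2 ^ n) (2 * (a : ℤ) - 2 * a') ((y : ℤ) - y') hA
  set S := ∑ x ∈ range (2 ^ n), ee (((((2 * (a : ℤ) - 2 * a') : ℤ) * (x : ℤ) ^ 2
        + ((y : ℤ) - y' : ℤ) * x : ℤ) : ℝ) / ((2 ^ n : ℕ) : ℝ)) with hS
  have hA2 : (2 * (2 * (a : ℤ) - 2 * a')).natAbs ≤ 9 := by omega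
  have hb2 : ‖S‖ ^ 2 ≤ 9 * 2 ^ n := by
    refine hb.trans ?_
    push_cast
    have : (((2 * (2 * (a : ℤ) - 2 * a')).natAbs : ℕ) : ℝ) ≤ 9 := by exact_mod_cast hA2
    exact mul_le_mul_of_nonneg_right this (by positivity)
  have hsq : Real.sqrt (2 ^ n) ^ 2 = 2 ^ n := Real.sq_sqrt (by positivity)
  have hb3 : ‖S‖ ≤ 3 * Real.sqrt (2 ^ n) := by
    apply le_of_sq_le_sq _ (by positivity)
    rw [mul_pow, hsq]
    linarith
  calc ((2 : ℝ) ^ n)⁻¹ * ‖S‖ ≤ ((2 : ℝ) ^ n)⁻¹ * (3 * Real.sqrt (2 ^ n)) := by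
        gcongr
    _ = 3 * (Real.sqrt (2 ^ n))⁻¹ := by
        have hp := sqrt_pow_pos n
        set r := Real.sqrt (2 ^ n) with hr
        rw [← hsq]
        field_simp

/-- flatness between chirp bases on consecutive levels. -/
lemma bb_flat_cross (n a a' y y' s : ℕ) (ha : a < 3) (ha' : a' < 3) :
    ‖∑ x ∈ range (2 ^ n), (starRingEnd ℂ) (bb (n + 1) a' y' (2 * x + s)) * bb n a y x‖
      ≤ 3 * (Real.sqrt (2 ^ n))⁻¹ := by
  have hN : NeZero (2 ^ n) := ⟨by positivity⟩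
  have hterm : ∀ x ∈ range (2 ^ n), (starRingEnd ℂ) (bb (n + 1) a' y' (2 * x + s)) * bb n a y x
      = ((Real.sqrt (2 ^ (n + 1)))⁻¹ : ℝ) * ((Real.sqrt (2 ^ n))⁻¹ : ℝ)
        * ee (-((((2 * a' + 1) * s ^ 2 + s * y' : ℤ) : ℝ) / ((2 ^ (n + 1) : ℕ) : ℝ)))
        * ee (((((2 * (a : ℤ) + 1 - 2 * (2 * a' + 1)) : ℤ) * (x : ℤ) ^ 2
        + ((y : ℤ) - y' - 2 * (2 * a' + 1) * s : ℤ) * x : ℤ) : ℝ) / ((2 ^ n : ℕ) : ℝ)) := by
    intro x _
    unfold bb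
    rw [map_mul, conj_ee, Complex.conj_ofReal]
    have h4 : ee (-((((2 * a' + 1) * (2 * x + s : ℕ) ^ 2 + (2 * x + s : ℕ) * y' : ℤ) : ℝ) / ((2 ^ (n + 1) : ℕ) : ℝ)))
        * ee ((((2 * a + 1) * x ^ 2 + x * y : ℤ) : ℝ) / ((2 ^ n : ℕ) : ℝ))
        = ee (-((((2 * a' + 1) * s ^ 2 + s * y' : ℤ) : ℝ) / ((2 ^ (n + 1) : ℕ) : ℝ)))
        * ee (((((2 * (a : ℤ) + 1 - 2 * (2 * a' + 1)) : ℤ) * (x : ℤ) ^ 2
        + ((y : ℤ) - y' - 2 * (2 * a' + 1) * s : ℤ) * x : ℤ) : ℝ) / ((2 ^ n : ℕ) : ℝ)) := by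
      rw [← ee_add, ← ee_add]
      congr 1
      push_cast
      rw [pow_succ]
      field_simp
      ring
    linear_combination (((Real.sqrt (2 ^ (n + 1)))⁻¹ : ℝ) : ℂ) * (((Real.sqrt (2 ^ n))⁻¹ : ℝ) : ℂ) * h4
  rw [Finset.sum_congr rfl hterm, ← Finset.mul_sum, norm_mul, norm_mul, norm_mul, norm_ee,
    Complex.norm_real, Complex.norm_real,
    Real.norm_of_nonneg (by positivity), Real.norm_of_nonneg (by positivity), mul_one]
  have hA : (2 * (a : ℤ) + 1 - 2 * (2 * a' + 1)) ≠ 0 := by omega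
  have hb := norm_sq_chirp_sum_le (2 ^ n) (2 * (a : ℤ) + 1 - 2 * (2 * a' + 1))
    ((y : ℤ) - y' - 2 * (2 * a' + 1) * s) hA
  set S := ∑ x ∈ range (2 ^ n), ee (((((2 * (a : ℤ) + 1 - 2 * (2 * a' + 1)) : ℤ) * (x : ℤ) ^ 2
        + ((y : ℤ) - y' - 2 * (2 * a' + 1) * s : ℤ) * x : ℤ) : ℝ) / ((2 ^ n : ℕ) : ℝ)) with hS
  have hA2 : (2 * (2 * (a : ℤ) + 1 - 2 * (2 * a' + 1))).natAbs ≤ 18 := by omega
  have hb2 : ‖S‖ ^ 2 ≤ 18 * 2 ^ n := by
    refine hb.trans ?_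
    push_cast
    have : (((2 * (2 * (a : ℤ) + 1 - 2 * (2 * a' + 1))).natAbs : ℕ) : ℝ) ≤ 18 := by exact_mod_cast hA2
    exact mul_le_mul_of_nonneg_right this (by positivity)
  have hsq : Real.sqrt (2 ^ n) ^ 2 = 2 ^ n := Real.sq_sqrt (by positivity)
  have hsq1 : Real.sqrt (2 ^ (n + 1)) ^ 2 = 2 * 2 ^ n := by
    rw [Real.sq_sqrt (by positivity), pow_succ]; ring
  have hb3 : ‖S‖ ≤ 3 * Real.sqrt (2 ^ (n + 1)) := by
    apply le_of_sq_le_sq _ (by positivity)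
    rw [mul_pow, hsq1]
    linarith
  calc (Real.sqrt (2 ^ (n + 1)))⁻¹ * (Real.sqrt (2 ^ n))⁻¹ * ‖S‖
      ≤ (Real.sqrt (2 ^ (n + 1)))⁻¹ * (Real.sqrt (2 ^ n))⁻¹ * (3 * Real.sqrt (2 ^ (n + 1))) := by
        gcongr
    _ = 3 * (Real.sqrt (2 ^ n))⁻¹ := by
        have hp := sqrt_pow_pos n
        have hp1 := sqrt_pow_pos (n + 1)
        field_simp

end Pool.Agent.Davie
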