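import Pool.Agent.Lib.MP_91e127_an.Chirp

set_option autoImplicit false

open Finset

namespace Pool.Agent.Davie

/-- raw vectors: `v n j` is the `j`-th coordinate (relevant for `j < 2^n`) at level `n`. -/
abbrev Raw := ℕ → ℕ → ℂ

/-- index set of the coordinate functionals. -/
abbrev Gam := Σ n : ℕ, Fin 3 × Fin (2 ^ n)

/-- the maps `L_a` from level `n+1` to level `n`. -/
def LL (a : Fin 3) (w : ℕ → ℂ) (x : ℕ) : ℂ :=
  if a = 0 then w (2 * x) else if a = 1 then w (2 * x + 1) else - w (2 * x) - w (2 * x + 1)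

/-- coefficients of the transposed maps `M_a`. -/
def mm (a : Fin 3) (s : ℕ) : ℂ :=
  if a = 0 then (if s = 0 then 2 else -1) else if a = 1 then (if s = 0 then -1 else 2) else -1

/-- coordinate functionals on raw vectors. -/
noncomputable def del (g : Gam) : Raw →ₗ[ℂ] ℂ where
  toFun v := ∑ x ∈ range (2 ^ g.1),
    (starRingEnd ℂ) (bb g.1 g.2.1 g.2.2 x) * (v g.1 x + LL g.2.1 (v (g.1 + 1)) x)
  map_add' v w := by
    rw [← Finset.sum_add_distrib]
    refine Finset.sum_congr rfl (fun x _ => ?_)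
    have : LL g.2.1 ((v + w) (g.1 + 1)) x = LL g.2.1 (v (g.1 + 1)) x + LL g.2.1 (w (g.1 + 1)) x := by
      unfold LL
      split_ifs <;> simp only [Pi.add_apply] <;> ring
    rw [this]
    simp only [Pi.add_apply]
    ring
  map_smul' c v := by
    simp only [RingHom.id_apply, smul_eq_mul]
    rw [Finset.mul_sum]
    refine Finset.sum_congr rfl (fun x _ => ?_)
    have : LL g.2.1 ((c • v) (g.1 + 1)) x = c * LL g.2.1 (v (g.1 + 1)) x := by
      unfold LL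
      split_ifs <;> simp only [Pi.smul_apply, smul_eq_mul] <;> ring
    rw [this]
    simp only [Pi.smul_apply, smul_eq_mul]
    ring

lemma del_apply (g : Gam) (v : Raw) : del g v = ∑ x ∈ range (2 ^ g.1),
    (starRingEnd ℂ) (bb g.1 g.2.1 g.2.2 x) * (v g.1 x + LL g.2.1 (v (g.1 + 1)) x) := rfl

/-- reconstruction from one chirp basis. -/
lemma sum_bb_del (n : ℕ) (a : Fin 3) (v : Raw) (x : ℕ) (hx : x < 2 ^ n) :
    ∑ y : Fin (2 ^ n), bb n a y x * del ⟨n, a, y⟩ v = v n x + LL a (v (n + 1)) x := by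
  simp only [del_apply]
  have h1 : ∀ y : Fin (2 ^ n), bb n a y x * ∑ x' ∈ range (2 ^ n),
      (starRingEnd ℂ) (bb n a y x') * (v n x' + LL a (v (n + 1)) x')
      = ∑ x' ∈ range (2 ^ n), (bb n a y x * (starRingEnd ℂ) (bb n a y x'))
        * (v n x' + LL a (v (n + 1)) x') := by
    intro y
    rw [Finset.mul_sum]
    refine Finset.sum_congr rfl (fun x' _ => by ring)
  rw [Finset.sum_congr rfl (fun y _ => h1 y), Finset.sum_comm]
  have h2 : ∀ x' ∈ range (2 ^ n), ∑ y : Fin (2 ^ n),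
      (bb n a y x * (starRingEnd ℂ) (bb n a y x')) * (v n x' + LL a (v (n + 1)) x')
      = if x = x' then (v n x' + LL a (v (n + 1)) x') else 0 := by
    intro x' hx'
    rw [← Finset.sum_mul, Fin.sum_univ_eq_sum_range
      (fun y => bb n a y x * (starRingEnd ℂ) (bb n a y x')),
      bb_complete n a x x' hx (Finset.mem_range.1 hx')]
    split_ifs <;> simp
  rw [Finset.sum_congr rfl h2, Finset.sum_ite_eq]
  rw [if_pos (Finset.mem_range.2 hx)]

lemma up_identity (n : ℕ) (v : Raw) (x : ℕ) (hx : x < 2 ^ n) :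
    ∑ a : Fin 3, ∑ y : Fin (2 ^ n), bb n a y x * del ⟨n, a, y⟩ v = 3 * v n x := by
  rw [Finset.sum_congr rfl (fun a _ => sum_bb_del n a v x hx)]
  simp only [Fin.sum_univ_three, LL]
  simp
  ring

lemma down_identity (n : ℕ) (v : Raw) (x s : ℕ) (hx : x < 2 ^ n) (hs : s < 2) :
    ∑ a : Fin 3, mm a s * ∑ y : Fin (2 ^ n), bb n a y x * del ⟨n, a, y⟩ v
      = 3 * v (n + 1) (2 * x + s) := by
  rw [Finset.sum_congr rfl (fun a _ => by rw [sum_bb_del n a v x hx])]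
  simp only [Fin.sum_univ_three, LL, mm]
  interval_cases s
  · simp
    ring
  · simp
    ring

/-- sums over `range (2 m)` split into even and odd parts. -/
lemma sum_range_two_mul (m : ℕ) (f : ℕ → ℂ) :
    ∑ j ∈ range (2 * m), f j = ∑ x ∈ range m, (f (2 * x) + f (2 * x + 1)) := by
  induction m with
  | zero => simp
  | succ k ih =>
    rw [show 2 * (k + 1) = 2 * k + 1 + 1 by ring, Finset.sum_range_succ, Finset.sum_range_succ, ih,
      Finset.sum_range_succ]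
    ring

/-- the basis vectors -/
def ev (n j : ℕ) : Raw := fun m i => if m = n ∧ i = j then 1 else 0

/-- vectors of level at most `K`. -/
def Vle (K : ℕ) : Submodule ℂ Raw where
  carrier := {v | ∀ n j, (K < n ∨ 2 ^ n ≤ j) → v n j = 0}
  zero_mem' := by intro n j _; rfl
  add_mem' := by
    intro v w hv hw n j h
    simp [hv n j h, hw n j h]
  smul_mem' := by
    intro c v hv n j h
    simp [hv n j h]

lemma mem_Vle (K : ℕ) (v : Raw) : v ∈ Vle K ↔ ∀ n j, (K < n ∨ 2 ^ n ≤ j) → v n j = 0 := Iff.rfl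

lemma Vle_mono {K K' : ℕ} (h : K ≤ K') : Vle K ≤ Vle K' := by
  intro v hv n j hnj
  exact hv n j (hnj.imp (fun h' => lt_of_le_of_lt h h') id)

lemma ev_mem (n j : ℕ) (hj : j < 2 ^ n) {K : ℕ} (hK : n ≤ K) : ev n j ∈ Vle K := by
  intro m i h
  unfold ev
  rw [if_neg]
  rintro ⟨rfl, rfl⟩
  rcases h with h | h
  · omega
  · omega

lemma del_eq_zero_of_mem {K : ℕ} {v : Raw} (hv : v ∈ Vle K) (g : Gam) (hg : K < g.1) :
    del g v = 0 := by
  rw [del_apply]
  refine Finset.sum_eq_zero (fun x _ => ?_)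
  have h1 : ∀ j, v g.1 j = 0 := fun j => hv _ _ (Or.inl hg)
  have h2 : ∀ j, v (g.1 + 1) j = 0 := fun j => hv _ _ (Or.inl (by omega))
  have h3 : LL g.2.1 (v (g.1 + 1)) x = 0 := by
    unfold LL
    split_ifs <;> simp [h2]
  rw [h1, h3]
  simp

/-- `ev m j` has vanishing coordinates unless the level is `m` or `m - 1`. -/
lemma del_ev_eq_zero (m j : ℕ) (g : Gam) (h1 : g.1 ≠ m) (h2 : g.1 + 1 ≠ m) :
    del g (ev m j) = 0 := by
  rw [del_apply]
  refine Finset.sum_eq_zero (fun x _ => ?_)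
  have h2' : ∀ i, ev m j (g.1 + 1) i = 0 := by
    intro i
    unfold ev
    rw [if_neg]
    rintro ⟨h, _⟩
    exact h2 h
  have h3 : LL g.2.1 (ev m j (g.1 + 1)) x = 0 := by
    unfold LL
    split_ifs <;> simp [h2']
  rw [h3]
  have h4 : ev m j g.1 x = 0 := by
    unfold ev
    simp [h1]
  rw [h4]
  simp

/-- expansion of a vector of level at most `K` in the basis. -/
lemma eq_sum_ev {K : ℕ} {v : Raw} (hv : v ∈ Vle K) :
    v = ∑ m ∈ range (K + 1), ∑ j ∈ range (2 ^ m), v m j • ev m j := by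
  funext n i
  simp only [Finset.sum_apply, Pi.smul_apply, smul_eq_mul, ev]
  by_cases hn : K < n ∨ 2 ^ n ≤ i
  · rw [hv n i hn]
    symm
    refine Finset.sum_eq_zero (fun m hm => Finset.sum_eq_zero (fun j hj => ?_))
    rw [if_neg, mul_zero]
    rintro ⟨rfl, rfl⟩
    rw [Finset.mem_range] at hm hj
    omega
  · push Not at hn
    rw [Finset.sum_eq_single n]
    · rw [Finset.sum_eq_single i]
      · simp
      · intro j _ hj
        rw [if_neg, mul_zero]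
        rintro ⟨_, rfl⟩
        exact hj rfl
      · intro h
        exact absurd (Finset.mem_range.2 hn.2) h
    · intro m _ hm
      refine Finset.sum_eq_zero (fun j _ => ?_)
      rw [if_neg, mul_zero]
      rintro ⟨rfl, _⟩
      exact hm rfl
    · intro h
      exact absurd (Finset.mem_range.2 (by omega)) h

/-- the telescoping vectors -/
noncomputable def Phi (g : Gam) : Raw :=
  ∑ x ∈ range (2 ^ g.1), ∑ s ∈ range 2, (mm g.2.1 s * bb g.1 g.2.1 g.2.2 x) • ev (g.1 + 1) (2 * x + s)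
    - (2 : ℂ) • ∑ j ∈ range (2 ^ g.1), bb g.1 g.2.1 g.2.2 j • ev g.1 j

lemma Phi_mem (g : Gam) {K : ℕ} (hK : g.1 + 1 ≤ K) : Phi g ∈ Vle K := by
  unfold Phi
  refine Submodule.sub_mem _ (Submodule.sum_mem _ (fun x hx => Submodule.sum_mem _ (fun s hs => ?_)))
    (Submodule.smul_mem _ _ (Submodule.sum_mem _ (fun j hj => ?_)))
  · refine Submodule.smul_mem _ _ (ev_mem _ _ ?_ hK)
    rw [Finset.mem_range] at hx hs
    rw [pow_succ]
    omega
  · exact Submodule.smul_mem _ _ (ev_mem _ _ (Finset.mem_range.1 hj) (by omega))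

lemma Phi_self (g : Gam) (x : ℕ) (hx : x < 2 ^ g.1) :
    Phi g g.1 x = - 2 * bb g.1 g.2.1 g.2.2 x := by
  unfold Phi
  simp only [Pi.sub_apply, Finset.sum_apply, Pi.smul_apply, smul_eq_mul, ev]
  have h1 : ∑ x' ∈ range (2 ^ g.1), ∑ s ∈ range 2, mm g.2.1 s * bb g.1 g.2.1 g.2.2 x' *
      (if g.1 = g.1 + 1 ∧ x = 2 * x' + s then (1 : ℂ) else 0) = 0 := by
    refine Finset.sum_eq_zero (fun x' _ => Finset.sum_eq_zero (fun s _ => ?_))
    rw [if_neg, mul_zero]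
    rintro ⟨h, _⟩
    omega
  rw [h1, Finset.sum_eq_single x]
  · simp
  · intro j _ hj
    rw [if_neg, mul_zero]
    rintro ⟨_, rfl⟩
    exact hj rfl
  · intro h
    exact absurd (Finset.mem_range.2 hx) h

lemma Phi_succ (g : Gam) (x s : ℕ) (hx : x < 2 ^ g.1) (hs : s < 2) :
    Phi g (g.1 + 1) (2 * x + s) = mm g.2.1 s * bb g.1 g.2.1 g.2.2 x := by
  unfold Phi
  simp only [Pi.sub_apply, Finset.sum_apply, Pi.smul_apply, smul_eq_mul, ev]
  have h1 : ∑ j ∈ range (2 ^ g.1), bb g.1 g.2.1 g.2.2 j *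
      (if g.1 + 1 = g.1 ∧ 2 * x + s = j then (1 : ℂ) else 0) = 0 := by
    refine Finset.sum_eq_zero (fun j _ => ?_)
    rw [if_neg, mul_zero]
    rintro ⟨h, _⟩
    omega
  rw [h1, Finset.sum_eq_single x]
  · rw [Finset.sum_eq_single s]
    · simp
    · intro s' hs' hne
      rw [if_neg, mul_zero]
      rintro ⟨_, h⟩
      omega
    · intro h
      exact absurd (Finset.mem_range.2 hs) h
  · intro x' _ hne
    refine Finset.sum_eq_zero (fun s' hs' => ?_)
    rw [if_neg, mul_zero]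
    rintro ⟨_, h⟩
    rw [Finset.mem_range] at hs'
    omega
  · intro h
    exact absurd (Finset.mem_range.2 hx) h

lemma Phi_other (g : Gam) (m j : ℕ) (h1 : m ≠ g.1) (h2 : m ≠ g.1 + 1) : Phi g m j = 0 := by
  unfold Phi
  simp only [Pi.sub_apply, Finset.sum_apply, Pi.smul_apply, smul_eq_mul, ev]
  rw [Finset.sum_eq_zero, Finset.sum_eq_zero]
  · simp
  · intro x _
    rw [if_neg, mul_zero]
    rintro ⟨h, _⟩
    exact h1 h
  · intro x _
    refine Finset.sum_eq_zero (fun s _ => ?_)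
    rw [if_neg, mul_zero]
    rintro ⟨h, _⟩
    exact h2 h

lemma norm_mm_le (a : Fin 3) (s : ℕ) : ‖mm a s‖ ≤ 2 := by
  unfold mm
  split_ifs <;> norm_num

lemma norm_mm_add_le (a : Fin 3) : ‖mm a 0‖ + ‖mm a 1‖ ≤ 3 := by
  unfold mm
  split_ifs <;> norm_num at *

lemma norm_del_Phi_same (n : ℕ) (a a' : Fin 3) (y y' : Fin (2 ^ n)) :
    ‖del ⟨n, a', y'⟩ (Phi ⟨n, a, y⟩)‖ ≤ 17 * (Real.sqrt (2 ^ n))⁻¹ := by
  have hpos : 0 < (Real.sqrt (2 ^ n))⁻¹ := inv_pos.2 (sqrt_pow_pos n)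
  rw [del_apply]
  have hLL : ∀ x ∈ range (2 ^ n), LL a' (Phi ⟨n, a, y⟩ (n + 1)) x
      = (if a = a' then 2 else -1) * bb n a y x := by
    intro x hx
    rw [Finset.mem_range] at hx
    have e0 := Phi_succ ⟨n, a, y⟩ x 0 hx (by norm_num)
    have e1 := Phi_succ ⟨n, a, y⟩ x 1 hx (by norm_num)
    simp only [add_zero] at e0 e1
    unfold LL
    rw [e0, e1]
    unfold mm
    fin_cases a <;> fin_cases a' <;> simp <;> ring
  have hsum : ∑ x ∈ range (2 ^ n), (starRingEnd ℂ) (bb n a' y' x)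
        * (Phi ⟨n, a, y⟩ n x + LL a' (Phi ⟨n, a, y⟩ (n + 1)) x)
      = (if a = a' then 0 else -3) * ∑ x ∈ range (2 ^ n), (starRingEnd ℂ) (bb n a' y' x) * bb n a y x := by
    rw [Finset.mul_sum]
    refine Finset.sum_congr rfl (fun x hx => ?_)
    rw [hLL x hx, Phi_self ⟨n, a, y⟩ x (Finset.mem_range.1 hx)]
    split_ifs <;> ring
  simp only at hsum ⊢
  rw [hsum]
  by_cases h : a = a'
  · rw [if_pos h]
    simp only [zero_mul, norm_zero]
    positivity
  · rw [if_neg h, norm_mul]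
    have hne : (a : ℕ) ≠ a' := fun h' => h (Fin.ext h')
    have := bb_flat_same n a a' y y' a.2 a'.2 hne
    have h3 : ‖(-3 : ℂ)‖ = 3 := by simp
    rw [h3]
    nlinarith

lemma norm_del_Phi_succ (n : ℕ) (a a' : Fin 3) (y : Fin (2 ^ n)) (y' : Fin (2 ^ (n + 1))) :
    ‖del ⟨n + 1, a', y'⟩ (Phi ⟨n, a, y⟩)‖ ≤ 17 * (Real.sqrt (2 ^ n))⁻¹ := by
  have hpos : 0 < (Real.sqrt (2 ^ n))⁻¹ := inv_pos.2 (sqrt_pow_pos n)
  rw [del_apply]
  have hz : ∀ j, Phi ⟨n, a, y⟩ (n + 1 + 1) j = 0 := by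
    intro j
    refine Phi_other ⟨n, a, y⟩ (n + 1 + 1) j ?_ ?_
    · simp only
      omega
    · simp
  have hLL : ∀ x, LL a' (Phi ⟨n, a, y⟩ (n + 1 + 1)) x = 0 := by
    intro x
    unfold LL
    split_ifs <;> simp [hz]
  simp only [hLL, add_zero]
  have hpow : 2 * 2 ^ n = 2 ^ (n + 1) := by rw [pow_succ]; ring
  have hsplit := sum_range_two_mul (2 ^ n)
    (fun x => (starRingEnd ℂ) (bb (n + 1) a' y' x) * Phi ⟨n, a, y⟩ (n + 1) x)
  rw [hpow] at hsplit
  rw [hsplit]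
  have hterm : ∀ x ∈ range (2 ^ n), (starRingEnd ℂ) (bb (n + 1) a' y' (2 * x)) * Phi ⟨n, a, y⟩ (n + 1) (2 * x)
      + (starRingEnd ℂ) (bb (n + 1) a' y' (2 * x + 1)) * Phi ⟨n, a, y⟩ (n + 1) (2 * x + 1)
      = mm a 0 * ((starRingEnd ℂ) (bb (n + 1) a' y' (2 * x + 0)) * bb n a y x)
        + mm a 1 * ((starRingEnd ℂ) (bb (n + 1) a' y' (2 * x + 1)) * bb n a y x) := by
    intro x hx
    rw [Finset.mem_range] at hx
    have e0 := Phi_succ ⟨n, a, y⟩ x 0 hx (by norm_num)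
    have e1 := Phi_succ ⟨n, a, y⟩ x 1 hx (by norm_num)
    simp only [add_zero] at e0 e1
    rw [e0, e1]
    simp only [add_zero]
    ring
  rw [Finset.sum_congr rfl hterm, Finset.sum_add_distrib, ← Finset.mul_sum, ← Finset.mul_sum]
  refine (norm_add_le _ _).trans ?_
  rw [norm_mul, norm_mul]
  have b0 := bb_flat_cross n a a' y y' 0 a.2 a'.2
  have b1 := bb_flat_cross n a a' y y' 1 a.2 a'.2
  have hm := norm_mm_add_le a
  calc ‖mm a 0‖ * ‖∑ x ∈ range (2 ^ n), (starRingEnd ℂ) (bb (n + 1) a' y' (2 * x + 0)) * bb n a y x‖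
        + ‖mm a 1‖ * ‖∑ x ∈ range (2 ^ n), (starRingEnd ℂ) (bb (n + 1) a' y' (2 * x + 1)) * bb n a y x‖
      ≤ ‖mm a 0‖ * (3 * (Real.sqrt (2 ^ n))⁻¹) + ‖mm a 1‖ * (3 * (Real.sqrt (2 ^ n))⁻¹) := by
        gcongr
    _ = (‖mm a 0‖ + ‖mm a 1‖) * (3 * (Real.sqrt (2 ^ n))⁻¹) := by ring
    _ ≤ 3 * (3 * (Real.sqrt (2 ^ n))⁻¹) := by gcongr
    _ ≤ 17 * (Real.sqrt (2 ^ n))⁻¹ := by nlinarith

lemma norm_del_Phi_pred (n : ℕ) (a a' : Fin 3) (y : Fin (2 ^ (n + 1))) (y' : Fin (2 ^ n)) :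
    ‖del ⟨n, a', y'⟩ (Phi ⟨n + 1, a, y⟩)‖ ≤ 17 * (Real.sqrt (2 ^ (n + 1)))⁻¹ := by
  have hpos : 0 < (Real.sqrt (2 ^ n))⁻¹ := inv_pos.2 (sqrt_pow_pos n)
  rw [del_apply]
  have hz : ∀ x, Phi ⟨n + 1, a, y⟩ n x = 0 := by
    intro x
    exact Phi_other ⟨n + 1, a, y⟩ n x (by simp) (by simp; omega)
  simp only [hz, zero_add]
  have hself : ∀ x ∈ range (2 ^ n), ∀ s < 2, Phi ⟨n + 1, a, y⟩ (n + 1) (2 * x + s)
      = -2 * bb (n + 1) a y (2 * x + s) := by
    intro x hx s hs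
    rw [Finset.mem_range] at hx
    refine Phi_self ⟨n + 1, a, y⟩ (2 * x + s) ?_
    simp only [pow_succ]
    omega
  have hflat : ∀ s : ℕ, ‖∑ x ∈ range (2 ^ n), (starRingEnd ℂ) (bb n a' y' x) * bb (n + 1) a y (2 * x + s)‖
      ≤ 3 * (Real.sqrt (2 ^ n))⁻¹ := by
    intro s
    have h1 : ∑ x ∈ range (2 ^ n), (starRingEnd ℂ) (bb n a' y' x) * bb (n + 1) a y (2 * x + s)
        = (starRingEnd ℂ) (∑ x ∈ range (2 ^ n), (starRingEnd ℂ) (bb (n + 1) a y (2 * x + s)) * bb n a' y' x) := by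
      rw [map_sum]
      refine Finset.sum_congr rfl (fun x _ => ?_)
      rw [map_mul, Complex.conj_conj]
      ring
    rw [h1, Complex.norm_conj]
    exact bb_flat_cross n a' a y' y s a'.2 a.2
  have hterm : ∑ x ∈ range (2 ^ n), (starRingEnd ℂ) (bb n a' y' x) * LL a' (Phi ⟨n + 1, a, y⟩ (n + 1)) x
      = (if a' = 0 then -2 else if a' = 1 then 0 else 2)
          * ∑ x ∈ range (2 ^ n), (starRingEnd ℂ) (bb n a' y' x) * bb (n + 1) a y (2 * x + 0)
        + (if a' = 0 then 0 else if a' = 1 then -2 else 2)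
          * ∑ x ∈ range (2 ^ n), (starRingEnd ℂ) (bb n a' y' x) * bb (n + 1) a y (2 * x + 1) := by
    rw [Finset.mul_sum, Finset.mul_sum, ← Finset.sum_add_distrib]
    refine Finset.sum_congr rfl (fun x hx => ?_)
    have e0 := hself x hx 0 (by norm_num)
    have e1 := hself x hx 1 (by norm_num)
    simp only [add_zero] at e0 e1
    unfold LL
    rw [e0, e1]
    split_ifs <;> (simp only [add_zero]; ring)
  rw [hterm]
  refine (norm_add_le _ _).trans ?_
  rw [norm_mul, norm_mul]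
  have f0 := hflat 0
  have f1 := hflat 1
  have hc0 : ‖(if a' = 0 then -2 else if a' = 1 then 0 else 2 : ℂ)‖ ≤ 2 := by
    split_ifs <;> norm_num
  have hc1 : ‖(if a' = 0 then 0 else if a' = 1 then -2 else 2 : ℂ)‖ ≤ 2 := by
    split_ifs <;> norm_num
  have hfin : 12 * (Real.sqrt (2 ^ n))⁻¹ ≤ 17 * (Real.sqrt (2 ^ (n + 1)))⁻¹ := by
    have hp := sqrt_pow_pos n
    have h1 : Real.sqrt (2 ^ (n + 1)) = Real.sqrt 2 * Real.sqrt (2 ^ n) := by
      rw [pow_succ, mul_comm, Real.sqrt_mul (by norm_num)]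
    rw [h1, mul_inv]
    have h2 : Real.sqrt 2 ≤ 17 / 12 := by
      rw [Real.sqrt_le_left (by norm_num)]
      norm_num
    have h3 : 0 < Real.sqrt 2 := Real.sqrt_pos.2 (by norm_num)
    have h4 : 12 ≤ 17 * (Real.sqrt 2)⁻¹ := by
      rw [← div_eq_mul_inv, le_div_iff₀ h3]
      linarith
    calc 12 * (Real.sqrt (2 ^ n))⁻¹ ≤ (17 * (Real.sqrt 2)⁻¹) * (Real.sqrt (2 ^ n))⁻¹ := by gcongr
      _ = 17 * ((Real.sqrt 2)⁻¹ * (Real.sqrt (2 ^ n))⁻¹) := by ring
  calc _ ≤ 2 * (3 * (Real.sqrt (2 ^ n))⁻¹) + 2 * (3 * (Real.sqrt (2 ^ n))⁻¹) := by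
        gcongr
    _ = 12 * (Real.sqrt (2 ^ n))⁻¹ := by ring
    _ ≤ _ := hfin

/-- flatness of the telescoping vectors. -/
lemma norm_del_Phi_le (g h : Gam) : ‖del h (Phi g)‖ ≤ 17 * (Real.sqrt (2 ^ g.1))⁻¹ := by
  obtain ⟨n, a, y⟩ := g
  obtain ⟨m, a', y'⟩ := h
  have hpos : 0 < (Real.sqrt (2 ^ n))⁻¹ := inv_pos.2 (sqrt_pow_pos n)
  by_cases h1 : m = n
  · subst h1
    exact norm_del_Phi_same m a a' y y'
  by_cases h2 : m = n + 1
  · subst h2
    exact norm_del_Phi_succ n a a' y y'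
  by_cases h3 : n = m + 1
  · subst h3
    exact norm_del_Phi_pred m a a' y y'
  have h0 : del ⟨m, a', y'⟩ (Phi ⟨n, a, y⟩) = 0 := by
    rw [del_apply]
    refine Finset.sum_eq_zero (fun x _ => ?_)
    have e1 : ∀ j, Phi ⟨n, a, y⟩ m j = 0 := fun j => Phi_other ⟨n, a, y⟩ m j h1 h2
    have e2 : ∀ j, Phi ⟨n, a, y⟩ (m + 1) j = 0 := by
      intro j
      refine Phi_other ⟨n, a, y⟩ (m + 1) j ?_ ?_
      · exact fun h => h3 h.symm
      · simp only
        omega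
    have e3 : LL a' (Phi ⟨n, a, y⟩ (m + 1)) x = 0 := by
      unfold LL
      split_ifs <;> simp [e2]
    simp only
    rw [e1, e3]
    simp
  rw [h0, norm_zero]
  positivity

end Pool.Agent.Davie
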