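import Mathlib

set_option autoImplicit false

namespace Pool.Agent.Nuclear

variable {𝕜 : Type*} [RCLike 𝕜] {X Y : Type*}
  [NormedAddCommGroup X] [NormedSpace 𝕜 X] [NormedAddCommGroup Y] [NormedSpace 𝕜 Y]

/-- The sequences `φ n` (bounded functionals on `X`) and `y n` (vectors of `Y`) form a nuclear
representation of `T`: `∑ ‖φ n‖ ‖y n‖ < ∞` and `T x = ∑ φ n x • y n` for every `x`. -/
structure IsNuclearRep (T : X →L[𝕜] Y) (φ : ℕ → (X →L[𝕜] 𝕜)) (y : ℕ → Y) : Prop where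
  summable : Summable (fun n => ‖φ n‖ * ‖y n‖)
  apply_eq : ∀ x, T x = ∑' n, φ n x • y n

/-- `T` is a nuclear operator. -/
def IsNuclear (T : X →L[𝕜] Y) : Prop := ∃ φ y, IsNuclearRep T φ y

/-- The nuclear norm: the infimum of `∑ ‖φ n‖ ‖y n‖` over all nuclear representations. -/
noncomputable def nuclearNorm (T : X →L[𝕜] Y) : ℝ :=
  sInf {r | ∃ φ y, IsNuclearRep T φ y ∧ r = ∑' n, ‖φ n‖ * ‖y n‖}

/-- `T` is a nuclear operator attaining its nuclear norm: the infimum is a minimum. -/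
def AttainsNuclearNorm (T : X →L[𝕜] Y) : Prop :=
  ∃ φ y, IsNuclearRep T φ y ∧ nuclearNorm T = ∑' n, ‖φ n‖ * ‖y n‖

end Pool.Agent.Nuclear
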