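import Pool.Agent.Lib.MP_91e127_an.Main

set_option autoImplicit false
set_option synthInstance.maxHeartbeats 400000
set_option maxHeartbeats 4000000

open Finset
open scoped ENNReal

namespace Pool.Agent.Davie

open Pool.Agent.Nuclear

/-- vectors of `Y` vanishing on a finite set of coordinates -/
def FY (ε : ℝ) (A : Finset (Option ℕ × Gam)) : Submodule ℝ (YY ε) where
  carrier := {u | ∀ i ∈ A, (u : Li) i = 0}
  zero_mem' := by
    intro i _
    rfl
  add_mem' := by
    intro u v hu hv i hi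
    have h1 := hu i hi
    have h2 := hv i hi
    rw [Submodule.coe_add, lp.coeFn_add, Pi.add_apply, h1, h2, add_zero]
  smul_mem' := by
    intro c u hu i hi
    have h1 := hu i hi
    have h2 : (c • u : YY ε) = (c : ℂ) • u := rfl
    rw [h2, Submodule.coe_smul, lp.coeFn_smul, Pi.smul_apply, h1, smul_zero]

lemma finite_supp_span (ε : ℝ) (z : Li) (hz : z ∈ Submodule.span ℂ (genY ε)) :
    {i : Option ℕ × Gam | z i ≠ 0}.Finite := by
  induction hz using Submodule.span_induction with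
  | mem f hf =>
    obtain ⟨M, v, hv, hf⟩ := hf
    refine (finite_supp_J ε M hv).subset ?_
    intro i hi
    simp only [Set.mem_ofPred_eq] at hi ⊢
    rw [← hf i]
    exact hi
  | zero => simp
  | add a b _ _ ha hb =>
    refine (ha.union hb).subset ?_
    intro i hi
    by_contra hcon
    simp only [Set.mem_union, Set.mem_ofPred_eq, not_or, not_not] at hcon
    apply hi
    rw [lp.coeFn_add, Pi.add_apply, hcon.1, hcon.2, add_zero]
  | smul c a _ ha =>
    refine ha.subset ?_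
    intro i hi
    by_contra hcon
    simp only [Set.mem_ofPred_eq, not_not] at hcon
    apply hi
    rw [lp.coeFn_smul, Pi.smul_apply, hcon, smul_zero]

/-- the unit sphere of `Y` is flat in all but finitely many coordinate directions -/
lemma flat_YY (ε : ℝ) (y₀ : YY ε) (hy : ‖y₀‖ = 1) :
    ∃ A : Finset (Option ℕ × Gam), ∀ u ∈ FY ε A, ‖u‖ ≤ 1 / 2 → ‖y₀ + u‖ ≤ 1 := by
  have hcl : (y₀ : Li) ∈ closure (Submodule.span ℂ (genY ε) : Set Li) := y₀.2
  obtain ⟨z, hz, hyz⟩ := Metric.mem_closure_iff.1 hcl (1 / 2) (by norm_num)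
  have hfin := finite_supp_span ε z hz
  refine ⟨hfin.toFinset, fun u hu hun => ?_⟩
  show ‖((y₀ + u : YY ε) : Li)‖ ≤ 1
  refine lp.norm_le_of_forall_le zero_le_one (fun i => ?_)
  rw [Submodule.coe_add, lp.coeFn_add, Pi.add_apply]
  have h1 : ‖(y₀ : Li) i‖ ≤ 1 := by
    have := lp.norm_apply_le_norm ENNReal.top_ne_zero (y₀ : Li) i
    have h2 : ‖(y₀ : Li)‖ = 1 := hy
    rwa [h2] at this
  by_cases hi : z i = 0
  · have h2 : ‖(y₀ : Li) i‖ ≤ 1 / 2 := by
      have h3 : (y₀ : Li) i = ((y₀ : Li) - z) i := by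
        rw [lp.coeFn_sub, Pi.sub_apply, hi, sub_zero]
      rw [h3]
      refine (lp.norm_apply_le_norm ENNReal.top_ne_zero _ i).trans ?_
      rw [← dist_eq_norm]
      exact hyz.le
    have h3 : ‖(u : Li) i‖ ≤ 1 / 2 :=
      (lp.norm_apply_le_norm ENNReal.top_ne_zero (u : Li) i).trans hun
    refine (norm_add_le _ _).trans ?_
    linarith
  · have h2 : (u : Li) i = 0 := hu i (hfin.mem_toFinset.2 hi)
    rw [h2, add_zero]
    exact h1

/-- `X` has a smooth dual. -/
lemma smooth_XX (f h : XX →L[ℂ] ℂ) (hf : ‖f‖ = 1) (η : ℝ) (hη : 0 < η) :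
    ∃ t : ℝ, 0 < t ∧ ‖f + t • h‖ + ‖f - t • h‖ < 2 + t * η := by
  refine dual_smooth_of_clarkson (X := XX) ?_ f h hf η hη
  intro x y
  exact clarkson4 (x : L4) (y : L4)

/-- the main estimate: norm attaining nuclear operators stay away from `T_{n,n}`. -/
theorem main_estimate : ∃ (ε : ℝ) (n : ℕ) (δ : ℝ), 0 < ε ∧ 0 < δ ∧
    ∀ S : XX →L[ℂ] YY ε, AttainsNuclearNorm S → δ ≤ nuclearNorm (TT ε n n - S) := by
  have hC0 := C0_pos
  have hrr := rr_pos
  have hrr1 := rr_lt_one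
  -- choose n
  obtain ⟨n, hn⟩ : ∃ n : ℕ, 17 / 2 * (rr ^ n / (1 - rr)) ≤ (4 * C0)⁻¹ := by
    have h1 : Filter.Tendsto (fun n : ℕ => 17 / 2 * (rr ^ n / (1 - rr))) Filter.atTop (nhds 0) := by
      have h2 := (tendsto_pow_atTop_nhds_zero_of_lt_one hrr.le hrr1).div_const (1 - rr)
      have h3 := h2.const_mul (17 / 2)
      simpa using h3
    have h2 : (0 : ℝ) < (4 * C0)⁻¹ := by positivity
    exact ((h1.eventually (ge_mem_nhds h2)).exists)
  obtain ⟨K, hK0, hK⟩ := exists_K n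
  -- choose ε
  obtain ⟨ε, hε, hε1, hεK⟩ : ∃ ε : ℝ, 0 < ε ∧ ε ≤ 1 ∧ ε * K ≤ (4 * C0)⁻¹ := by
    refine ⟨min 1 ((4 * C0)⁻¹ / (K + 1)), by positivity, min_le_left _ _, ?_⟩
    calc min 1 ((4 * C0)⁻¹ / (K + 1)) * K ≤ ((4 * C0)⁻¹ / (K + 1)) * K := by
          gcongr
          exact min_le_right _ _
      _ = (4 * C0)⁻¹ * (K / (K + 1)) := by ring
      _ ≤ (4 * C0)⁻¹ * 1 := by
          gcongr
          rw [div_le_one (by positivity)]
          linarith
      _ = _ := mul_one _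
  refine ⟨ε, n, (8 * C0)⁻¹, hε, by positivity, ?_⟩
  intro S hatt
  by_contra hcon
  push Not at hcon
  have hSn : IsNuclear S := by
    obtain ⟨φ, y, hr, _⟩ := hatt
    exact ⟨φ, y, hr⟩
  have hTn := isNuclear_TT ε n n
  have hT : C0⁻¹ ≤ nuclearNorm (TT ε n n) := le_nuclearNorm hTn (fun φ y h => one_le_of_rep hε n h)
  have e8 : (8 * C0)⁻¹ = C0⁻¹ / 8 := by rw [mul_inv]; ring
  have e4 : (4 * C0)⁻¹ = C0⁻¹ / 4 := by rw [mul_inv]; ring
  have hCi : 0 < C0⁻¹ := by positivity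
  rw [e8] at hcon
  rw [e4] at hn hεK
  -- the norm of S
  have hS : C0⁻¹ - C0⁻¹ / 8 < nuclearNorm S := by
    have h1 : TT ε n n = (TT ε n n - S) + S := by abel
    have h2 := nuclearNorm_add_le (hTn.sub hSn) hSn
    rw [← h1] at h2
    linarith
  have hSpos : 0 < nuclearNorm S := by linarith
  obtain ⟨g, hg, ⟨hS', hgS⟩, A, hA⟩ := support_kills (X := XX) (Y := YY ε) (FY ε) (flat_YY ε)
    smooth_XX S hatt hSpos
  -- lower bound for g (T)
  have hgT : C0⁻¹ - C0⁻¹ / 4 < g ⟨TT ε n n, hTn⟩ := by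
    have h1 : (⟨TT ε n n, hTn⟩ : nuclearSub XX (YY ε)) = ⟨S, hS'⟩ - ⟨S - TT ε n n, hS'.sub hTn⟩ := by
      apply Subtype.ext
      simp
    have h2 := hg ⟨S - TT ε n n, hS'.sub hTn⟩
    have h3 : nuclearNorm (S - TT ε n n) ≤ nuclearNorm (TT ε n n - S) := by
      have := nuclearNorm_neg_le (hTn.sub hSn)
      rwa [neg_sub] at this
    rw [h1, map_sub, hgS]
    simp only at h2
    linarith
  -- choose m
  set m : ℕ := n + 2 + ∑ i ∈ A, i.2.1 with hm
  have hlevel : ∀ i ∈ A, i.2.1 + 1 < m := by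
    intro i hi
    have := Finset.single_le_sum (f := fun i : Option ℕ × Gam => i.2.1) (fun _ _ => Nat.zero_le _) hi
    omega
  -- g kills T_{m,m}
  have hkill : g ⟨TT ε m m, isNuclear_TT ε m m⟩ = 0 := by
    have h1 : (⟨TT ε m m, isNuclear_TT ε m m⟩ : nuclearSub XX (YY ε))
        = ∑ j ∈ range (2 ^ m), rk (((2 ^ m : ℂ)⁻¹) • UX m j) (JY ε m (ev m j)) := by
      apply Subtype.ext
      rw [AddSubmonoidClass.coe_finsetSum]
      apply ContinuousLinearMap.ext
      intro z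
      rw [TT_apply, _root_.sum_apply, Finset.smul_sum]
      refine Finset.sum_congr rfl (fun j _ => ?_)
      simp only [rk, ContinuousLinearMap.smulRight_apply, smul_apply]
      exact (smul_assoc _ _ _).symm
    rw [h1, map_sum]
    refine Finset.sum_eq_zero (fun j hj => ?_)
    rw [Finset.mem_range] at hj
    refine hA _ _ ?_
    intro i hi
    rw [JY_apply ε m (ev_mem m j hj le_rfl), del_ev_eq_zero m j i.2, mul_zero]
    · have := hlevel i hi
      omega
    · have := hlevel i hi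
      omega
  -- telescoping
  have htel : ∀ k : ℕ, n + k ≤ m → g ⟨TT ε n m, isNuclear_TT ε n m⟩
      - g ⟨TT ε (n + k) m, isNuclear_TT ε (n + k) m⟩ ≤ ∑ l ∈ range k, 17 / 2 * rr ^ (n + l) := by
    intro k
    induction k with
    | zero => intro _; simp
    | succ k ih =>
      intro hk
      have h1 := ih (by omega)
      have h2 : g ⟨TT ε (n + k) m, isNuclear_TT ε (n + k) m⟩
          - g ⟨TT ε (n + (k + 1)) m, isNuclear_TT ε (n + (k + 1)) m⟩ ≤ 17 / 2 * rr ^ (n + k) := by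
        have hd : IsNuclear (TT ε (n + k) m - TT ε (n + (k + 1)) m) :=
          (isNuclear_TT ε (n + k) m).sub (isNuclear_TT ε (n + (k + 1)) m)
        have h3 : (⟨TT ε (n + k) m, isNuclear_TT ε (n + k) m⟩ : nuclearSub XX (YY ε))
            - ⟨TT ε (n + (k + 1)) m, isNuclear_TT ε (n + (k + 1)) m⟩
            = ⟨TT ε (n + k) m - TT ε (n + (k + 1)) m, hd⟩ := rfl
        rw [← map_sub, h3]
        refine (hg _).trans ?_
        have h4 := nuclearNorm_neg_le ((isNuclear_TT ε (n + k + 1) m).sub (isNuclear_TT ε (n + k) m))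
        rw [neg_sub] at h4
        exact h4.trans (nuclearNorm_TT_diff_le hε hε1 (n + k) m (by omega))
      rw [Finset.sum_range_succ]
      linarith
  have hsum : ∀ k : ℕ, ∑ l ∈ range k, 17 / 2 * rr ^ (n + l) ≤ 17 / 2 * (rr ^ n / (1 - rr)) := by
    intro k
    have h1 : ∑ l ∈ range k, 17 / 2 * rr ^ (n + l) = 17 / 2 * (rr ^ n * ∑ l ∈ range k, rr ^ l) := by
      rw [Finset.mul_sum, Finset.mul_sum]
      refine Finset.sum_congr rfl (fun l _ => ?_)
      rw [pow_add]
    rw [h1, div_eq_mul_inv (rr ^ n) (1 - rr)]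
    gcongr
    have h2 : ∑ l ∈ range k, rr ^ l ≤ ∑' l : ℕ, rr ^ l :=
      (summable_geometric_of_lt_one hrr.le hrr1).sum_le_tsum _ (fun l _ => by positivity)
    rwa [tsum_geometric_of_lt_one hrr.le hrr1] at h2
  have hTnm : g ⟨TT ε n m, isNuclear_TT ε n m⟩ ≤ C0⁻¹ / 4 := by
    have h1 := htel (m - n) (by omega)
    have h2 := hsum (m - n)
    have h3 : n + (m - n) = m := by omega
    simp only [h3] at h1
    rw [hkill] at h1
    linarith
  have hdiff : g ⟨TT ε n n, hTn⟩ - g ⟨TT ε n m, isNuclear_TT ε n m⟩ ≤ C0⁻¹ / 4 := by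
    have h3 : (⟨TT ε n n, hTn⟩ : nuclearSub XX (YY ε)) - ⟨TT ε n m, isNuclear_TT ε n m⟩
        = ⟨TT ε n n - TT ε n m, hTn.sub (isNuclear_TT ε n m)⟩ := rfl
    rw [← map_sub, h3]
    refine (hg _).trans ?_
    exact (hK ε hε n m le_rfl (by omega)).trans hεK
  linarith

end Pool.Agent.Davie
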