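import Pool.Agent.Lib.MP_91e127_an.YSpace

set_option autoImplicit false
set_option synthInstance.maxHeartbeats 400000
set_option maxHeartbeats 4000000

open Finset
open scoped ENNReal

namespace Pool.Agent.Davie

open Pool.Agent.Nuclear

instance complete_XX : CompleteSpace XX := isClosed_XX.completeSpace_coe
instance complete_YY (ε : ℝ) : CompleteSpace (YY ε) := (isClosed_YY ε).completeSpace_coe

/-- the normalized trace operators `T_{n,M} : X → Y`. -/
noncomputable def TT (ε : ℝ) (n M : ℕ) : XX →L[ℂ] YY ε :=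
  ((2 ^ n : ℂ)⁻¹) • ∑ j ∈ range (2 ^ n), (UX n j).smulRight (JY ε M (ev n j))

lemma TT_apply (ε : ℝ) (n M : ℕ) (x : XX) :
    TT ε n M x = ((2 ^ n : ℂ)⁻¹) • ∑ j ∈ range (2 ^ n), UX n j x • JY ε M (ev n j) := by
  simp [TT, smul_apply, _root_.sum_apply]

lemma isNuclear_TT (ε : ℝ) (n M : ℕ) : IsNuclear (TT ε n M) :=
  (IsNuclear.sum _ _ (fun _ _ => isNuclear_smulRight _ _)).smul _

/-- bound for the norm of the telescoping vectors in `Y`. -/
lemma norm_JY_Phi_le {ε : ℝ} (h0 : 0 < ε) (h1 : ε ≤ 1) (g : Gam) {M : ℕ} (hM : g.1 + 1 ≤ M) :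
    ‖JY ε M (Phi g)‖ ≤ 17 * (Real.sqrt (2 ^ g.1))⁻¹ := by
  have hpos : 0 < (Real.sqrt (2 ^ g.1))⁻¹ := inv_pos.2 (sqrt_pow_pos _)
  show ‖(JY ε M (Phi g) : Li)‖ ≤ _
  refine lp.norm_le_of_forall_le (by positivity) (fun i => ?_)
  rw [JY_apply ε M (Phi_mem g hM), norm_mul]
  calc ‖cf ε M i.1‖ * ‖del i.2 (Phi g)‖ ≤ 1 * (17 * (Real.sqrt (2 ^ g.1))⁻¹) := by
        gcongr
        · exact norm_cf_le h0 h1 M i.1
        · exact norm_del_Phi_le g i.2
    _ = _ := one_mul _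

/-- expansion of `del h (Phi g)`. -/
lemma del_Phi_expand (h g : Gam) : del h (Phi g) =
    ∑ x ∈ range (2 ^ g.1), ∑ s ∈ range 2,
      mm g.2.1 s * bb g.1 g.2.1 g.2.2 x * del h (ev (g.1 + 1) (2 * x + s))
    - 2 * ∑ j ∈ range (2 ^ g.1), bb g.1 g.2.1 g.2.2 j * del h (ev g.1 j) := by
  unfold Phi
  simp only [map_sub, map_sum, map_smul, smul_eq_mul]

/-- the telescoping identity -/
lemma TT_diff (ε : ℝ) (n M : ℕ) (hM : n + 1 ≤ M) :
    TT ε (n + 1) M - TT ε n M = ((6 * 2 ^ n : ℂ)⁻¹) • ∑ a : Fin 3, ∑ y : Fin (2 ^ n),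
      (DX ⟨n, a, y⟩).smulRight (JY ε M (Phi ⟨n, a, y⟩)) := by
  ext z i
  -- left side
  have hL1 : ((TT ε (n + 1) M z : YY ε) : Li) i = ((2 ^ (n + 1) : ℂ)⁻¹) *
      ∑ j ∈ range (2 ^ (n + 1)), UX (n + 1) j z * (cf ε M i.1 * del i.2 (ev (n + 1) j)) := by
    rw [TT_apply, Submodule.coe_smul, lp.coeFn_smul, Pi.smul_apply, smul_eq_mul]
    congr 1
    rw [AddSubmonoidClass.coe_finsetSum, lp.coeFn_sum, Finset.sum_apply]
    refine Finset.sum_congr rfl (fun j hj => ?_)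
    rw [Submodule.coe_smul, lp.coeFn_smul, Pi.smul_apply,
      JY_apply ε M (ev_mem _ _ (Finset.mem_range.1 hj) hM), smul_eq_mul]
  have hL2 : ((TT ε n M z : YY ε) : Li) i = ((2 ^ n : ℂ)⁻¹) *
      ∑ j ∈ range (2 ^ n), UX n j z * (cf ε M i.1 * del i.2 (ev n j)) := by
    rw [TT_apply, Submodule.coe_smul, lp.coeFn_smul, Pi.smul_apply, smul_eq_mul]
    congr 1
    rw [AddSubmonoidClass.coe_finsetSum, lp.coeFn_sum, Finset.sum_apply]
    refine Finset.sum_congr rfl (fun j hj => ?_)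
    rw [Submodule.coe_smul, lp.coeFn_smul, Pi.smul_apply,
      JY_apply ε M (ev_mem _ _ (Finset.mem_range.1 hj) (by omega)), smul_eq_mul]
  have hR : (((((6 * 2 ^ n : ℂ)⁻¹) • ∑ a : Fin 3, ∑ y : Fin (2 ^ n),
      (DX ⟨n, a, y⟩).smulRight (JY ε M (Phi ⟨n, a, y⟩)) : XX →L[ℂ] YY ε) z : YY ε) : Li) i
      = ((6 * 2 ^ n : ℂ)⁻¹) * ∑ a : Fin 3, ∑ y : Fin (2 ^ n),
        DX ⟨n, a, y⟩ z * (cf ε M i.1 * del i.2 (Phi ⟨n, a, y⟩)) := by
    rw [smul_apply, Submodule.coe_smul, lp.coeFn_smul, Pi.smul_apply, smul_eq_mul]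
    congr 1
    rw [_root_.sum_apply, AddSubmonoidClass.coe_finsetSum, lp.coeFn_sum, Finset.sum_apply]
    refine Finset.sum_congr rfl (fun a _ => ?_)
    rw [_root_.sum_apply, AddSubmonoidClass.coe_finsetSum, lp.coeFn_sum, Finset.sum_apply]
    refine Finset.sum_congr rfl (fun y _ => ?_)
    rw [ContinuousLinearMap.smulRight_apply, Submodule.coe_smul, lp.coeFn_smul, Pi.smul_apply,
      JY_apply ε M (Phi_mem _ hM), smul_eq_mul]
  have hsub : (((TT ε (n + 1) M - TT ε n M) z : YY ε) : Li) i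
      = ((TT ε (n + 1) M z : YY ε) : Li) i - ((TT ε n M z : YY ε) : Li) i := by
    rw [sub_apply, Submodule.coe_sub, lp.coeFn_sub, Pi.sub_apply]
  rw [hsub, hL1, hL2, hR]
  -- rewrite the first sum
  have hpow : 2 * 2 ^ n = 2 ^ (n + 1) := by rw [pow_succ]; ring
  rw [← hpow, sum_range_two_mul]
  have hU1 : ∀ x ∈ range (2 ^ n), ∀ s < 2, UX (n + 1) (2 * x + s) z
      = (1 / 3 : ℂ) * ∑ a : Fin 3, ∑ y : Fin (2 ^ n), mm a s * (bb n a y x * DX ⟨n, a, y⟩ z) := by
    intro x hx s hs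
    rw [UX_apply, z.2 n x s (Finset.mem_range.1 hx) hs, Dn_apply]
    congr 1
    refine Finset.sum_congr rfl (fun a _ => ?_)
    rw [Finset.mul_sum]
    rfl
  have hU0 : ∀ j ∈ range (2 ^ n), UX n j z
      = (1 / 3 : ℂ) * ∑ a : Fin 3, ∑ y : Fin (2 ^ n), bb n a y j * DX ⟨n, a, y⟩ z := by
    intro j _
    rw [UX_apply, U_apply]
    rfl
  have hA : ∑ x ∈ range (2 ^ n), (UX (n + 1) (2 * x) z * (cf ε M i.1 * del i.2 (ev (n + 1) (2 * x)))
        + UX (n + 1) (2 * x + 1) z * (cf ε M i.1 * del i.2 (ev (n + 1) (2 * x + 1))))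
      = (1 / 3 : ℂ) * ∑ a : Fin 3, ∑ y : Fin (2 ^ n), DX ⟨n, a, y⟩ z * (cf ε M i.1 *
          ∑ x ∈ range (2 ^ n), ∑ s ∈ range 2, mm a s * bb n a y x * del i.2 (ev (n + 1) (2 * x + s))) := by
    have h1 : ∀ x ∈ range (2 ^ n), (UX (n + 1) (2 * x) z * (cf ε M i.1 * del i.2 (ev (n + 1) (2 * x)))
        + UX (n + 1) (2 * x + 1) z * (cf ε M i.1 * del i.2 (ev (n + 1) (2 * x + 1))))
        = (1 / 3 : ℂ) * ∑ a : Fin 3, ∑ y : Fin (2 ^ n), DX ⟨n, a, y⟩ z * (cf ε M i.1 *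
           ∑ s ∈ range 2, mm a s * bb n a y x * del i.2 (ev (n + 1) (2 * x + s))) := by
      intro x hx
      have e0 := hU1 x hx 0 (by norm_num)
      have e1 := hU1 x hx 1 (by norm_num)
      simp only [add_zero] at e0
      rw [e0, e1]
      rw [mul_assoc, mul_assoc, ← mul_add]
      congr 1
      rw [Finset.sum_mul, Finset.sum_mul, ← Finset.sum_add_distrib]
      refine Finset.sum_congr rfl (fun a _ => ?_)
      rw [Finset.sum_mul, Finset.sum_mul, ← Finset.sum_add_distrib]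
      refine Finset.sum_congr rfl (fun y _ => ?_)
      rw [Finset.sum_range_succ, Finset.sum_range_one]
      simp only [add_zero]
      ring
    rw [Finset.sum_congr rfl h1, ← Finset.mul_sum]
    congr 1
    rw [Finset.sum_comm]
    refine Finset.sum_congr rfl (fun a _ => ?_)
    rw [Finset.sum_comm]
    refine Finset.sum_congr rfl (fun y _ => ?_)
    rw [Finset.mul_sum, Finset.mul_sum]
  have hB : ∑ j ∈ range (2 ^ n), UX n j z * (cf ε M i.1 * del i.2 (ev n j))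
      = (1 / 3 : ℂ) * ∑ a : Fin 3, ∑ y : Fin (2 ^ n), DX ⟨n, a, y⟩ z * (cf ε M i.1 *
          ∑ j ∈ range (2 ^ n), bb n a y j * del i.2 (ev n j)) := by
    have h1 : ∀ j ∈ range (2 ^ n), UX n j z * (cf ε M i.1 * del i.2 (ev n j))
        = (1 / 3 : ℂ) * ∑ a : Fin 3, ∑ y : Fin (2 ^ n), DX ⟨n, a, y⟩ z * (cf ε M i.1 *
           (bb n a y j * del i.2 (ev n j))) := by
      intro j hj
      rw [hU0 j hj, mul_assoc]
      congr 1
      rw [Finset.sum_mul]
      refine Finset.sum_congr rfl (fun a _ => ?_)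
      rw [Finset.sum_mul]
      refine Finset.sum_congr rfl (fun y _ => ?_)
      ring
    rw [Finset.sum_congr rfl h1, ← Finset.mul_sum]
    congr 1
    rw [Finset.sum_comm]
    refine Finset.sum_congr rfl (fun a _ => ?_)
    rw [Finset.sum_comm]
    refine Finset.sum_congr rfl (fun y _ => ?_)
    rw [Finset.mul_sum, Finset.mul_sum]
  rw [hA, hB]
  have hC : ∑ a : Fin 3, ∑ y : Fin (2 ^ n), DX ⟨n, a, y⟩ z * (cf ε M i.1 * del i.2 (Phi ⟨n, a, y⟩))
      = (∑ a : Fin 3, ∑ y : Fin (2 ^ n), DX ⟨n, a, y⟩ z * (cf ε M i.1 *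
          ∑ x ∈ range (2 ^ n), ∑ s ∈ range 2, mm a s * bb n a y x * del i.2 (ev (n + 1) (2 * x + s))))
        - 2 * ∑ a : Fin 3, ∑ y : Fin (2 ^ n), DX ⟨n, a, y⟩ z * (cf ε M i.1 *
          ∑ j ∈ range (2 ^ n), bb n a y j * del i.2 (ev n j)) := by
    rw [Finset.mul_sum, ← Finset.sum_sub_distrib]
    refine Finset.sum_congr rfl (fun a _ => ?_)
    rw [Finset.mul_sum, ← Finset.sum_sub_distrib]
    refine Finset.sum_congr rfl (fun y _ => ?_)
    rw [del_Phi_expand]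
    ring
  rw [hC]
  have h2n : (2 ^ n : ℂ) ≠ 0 := pow_ne_zero _ two_ne_zero
  generalize (∑ a : Fin 3, ∑ y : Fin (2 ^ n), DX ⟨n, a, y⟩ z * (cf ε M i.1 *
          ∑ x ∈ range (2 ^ n), ∑ s ∈ range 2,
            mm a s * bb n a y x * del i.2 (ev (n + 1) (2 * x + s)))) = A
  generalize (∑ a : Fin 3, ∑ y : Fin (2 ^ n), DX ⟨n, a, y⟩ z * (cf ε M i.1 *
          ∑ j ∈ range (2 ^ n), bb n a y j * del i.2 (ev n j))) = B
  rw [pow_succ]
  field_simp
  ring

/-- nuclear norm of the telescoping differences -/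
lemma nuclearNorm_TT_diff_le {ε : ℝ} (h0 : 0 < ε) (h1 : ε ≤ 1) (n M : ℕ) (hM : n + 1 ≤ M) :
    nuclearNorm (TT ε (n + 1) M - TT ε n M) ≤ 17 / 2 * rr ^ n := by
  have hrr := rr_pos
  rw [TT_diff ε n M hM]
  have hnuc : ∀ a ∈ (Finset.univ : Finset (Fin 3)), IsNuclear (∑ y : Fin (2 ^ n),
      (DX ⟨n, a, y⟩).smulRight (JY ε M (Phi ⟨n, a, y⟩))) := fun a _ =>
    IsNuclear.sum _ _ (fun _ _ => isNuclear_smulRight _ _)
  have hterm : ∀ (a : Fin 3) (y : Fin (2 ^ n)),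
      nuclearNorm ((DX ⟨n, a, y⟩).smulRight (JY ε M (Phi ⟨n, a, y⟩))) ≤ 17 * rr ^ n := by
    intro a y
    refine (nuclearNorm_smulRight_le _ _).trans ?_
    have e1 := norm_DX_le ⟨n, a, y⟩
    have e2 := norm_JY_Phi_le h0 h1 ⟨n, a, y⟩ hM
    simp only at e2
    rw [sqrt_two_pow] at e2
    calc ‖DX ⟨n, a, y⟩‖ * ‖JY ε M (Phi ⟨n, a, y⟩)‖
        ≤ (om ⟨n, a, y⟩)⁻¹ * (17 * rr ^ (4 * n)) := by
          gcongr
          exact inv_nonneg.2 (om_pos _).le
      _ = 17 * rr ^ n := by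
          unfold om
          simp only
          have h3 : rr ^ (4 * n) = rr ^ (3 * n) * rr ^ n := by rw [← pow_add]; congr 1; ring
          rw [h3]
          field_simp
  refine (nuclearNorm_smul_le (IsNuclear.sum _ _ hnuc) _).trans ?_
  have hsum : nuclearNorm (∑ a : Fin 3, ∑ y : Fin (2 ^ n),
      (DX ⟨n, a, y⟩).smulRight (JY ε M (Phi ⟨n, a, y⟩))) ≤ 3 * (2 ^ n * (17 * rr ^ n)) := by
    refine (nuclearNorm_sum_le _ _ hnuc).trans ?_
    have h2 : ∀ a ∈ (Finset.univ : Finset (Fin 3)), nuclearNorm (∑ y : Fin (2 ^ n),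
      (DX ⟨n, a, y⟩).smulRight (JY ε M (Phi ⟨n, a, y⟩))) ≤ 2 ^ n * (17 * rr ^ n) := by
      intro a _
      refine (nuclearNorm_sum_le _ _ (fun _ _ => isNuclear_smulRight _ _)).trans ?_
      refine (Finset.sum_le_sum (fun y _ => hterm a y)).trans ?_
      rw [Finset.sum_const, Finset.card_univ, Fintype.card_fin, nsmul_eq_mul]
      push_cast
      exact le_rfl
    refine (Finset.sum_le_sum h2).trans ?_
    rw [Finset.sum_const, Finset.card_univ, Fintype.card_fin, nsmul_eq_mul]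
    norm_num
  have hn : ‖((6 * 2 ^ n : ℂ)⁻¹)‖ = (6 * 2 ^ n : ℝ)⁻¹ := by
    rw [norm_inv, norm_mul, norm_pow]
    norm_num
  rw [hn]
  calc (6 * 2 ^ n : ℝ)⁻¹ * _ ≤ (6 * 2 ^ n : ℝ)⁻¹ * (3 * (2 ^ n * (17 * rr ^ n))) := by
        gcongr
    _ = 17 / 2 * rr ^ n := by
        field_simp
        norm_num

/-- changing the position parameter costs little. -/
lemma exists_K (n : ℕ) : ∃ K : ℝ, 0 ≤ K ∧ ∀ ε : ℝ, 0 < ε → ∀ M M' : ℕ, n ≤ M → n ≤ M' →
    nuclearNorm (TT ε n M - TT ε n M') ≤ ε * K := by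
  -- bound for the coordinates of `ev n j`, `j < 2^n`
  have hB : ∃ B : ℝ, 0 ≤ B ∧ ∀ j < 2 ^ n, ∀ g : Gam, ‖del g (ev n j)‖ ≤ B := by
    have h1 : ∀ j < 2 ^ n, ∃ B : ℝ, 0 ≤ B ∧ ∀ g : Gam, ‖del g (ev n j)‖ ≤ B := by
      intro j hj
      refine ⟨∑ g ∈ (finite_levels n).toFinset, ‖del g (ev n j)‖, by positivity, fun g => ?_⟩
      by_cases hg : g.1 ≤ n
      · exact Finset.single_le_sum (f := fun g => ‖del g (ev n j)‖) (fun _ _ => norm_nonneg _)
          ((finite_levels n).mem_toFinset.2 hg)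
      · rw [del_eq_zero_of_mem (ev_mem n j hj le_rfl) g (by omega), norm_zero]
        positivity
    choose! B hB0 hB using h1
    refine ⟨∑ j ∈ range (2 ^ n), B j, Finset.sum_nonneg (fun j hj => hB0 j (Finset.mem_range.1 hj)),
      fun j hj g => (hB j hj g).trans ?_⟩
    exact Finset.single_le_sum (f := B) (fun j hj => hB0 j (Finset.mem_range.1 hj))
      (Finset.mem_range.2 hj)
  obtain ⟨B, hB0, hB⟩ := hB
  refine ⟨∑ j ∈ range (2 ^ n), ‖UX n j‖ * B, by positivity, ?_⟩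
  intro ε hε M M' hM hM'
  have h1 : TT ε n M - TT ε n M' = ((2 ^ n : ℂ)⁻¹) • ∑ j ∈ range (2 ^ n),
      (UX n j).smulRight (JY ε M (ev n j) - JY ε M' (ev n j)) := by
    apply ContinuousLinearMap.ext
    intro z
    rw [sub_apply, TT_apply, TT_apply, smul_apply, _root_.sum_apply]
    have e1 : ∀ j ∈ range (2 ^ n), (UX n j).smulRight (JY ε M (ev n j) - JY ε M' (ev n j)) z
        = UX n j z • JY ε M (ev n j) - UX n j z • JY ε M' (ev n j) := by
      intro j _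
      rw [ContinuousLinearMap.smulRight_apply]
      exact smul_sub _ _ _
    rw [Finset.sum_congr rfl e1, Finset.sum_sub_distrib]
    exact (smul_sub _ _ _).symm
  have hJ : ∀ j ∈ range (2 ^ n), ‖JY ε M (ev n j) - JY ε M' (ev n j)‖ ≤ ε * B := by
    intro j hj
    rw [Finset.mem_range] at hj
    show ‖((JY ε M (ev n j) - JY ε M' (ev n j) : YY ε) : Li)‖ ≤ _
    refine lp.norm_le_of_forall_le (by positivity) (fun i => ?_)
    rw [Submodule.coe_sub, lp.coeFn_sub, Pi.sub_apply, JY_apply ε M (ev_mem n j hj hM),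
      JY_apply ε M' (ev_mem n j hj hM'), ← sub_mul, norm_mul]
    exact mul_le_mul (norm_cf_sub_le hε M M' i.1) (hB j hj i.2) (norm_nonneg _) hε.le
  rw [h1]
  refine (nuclearNorm_smul_le (IsNuclear.sum _ _ (fun _ _ => isNuclear_smulRight _ _)) _).trans ?_
  have hn : ‖((2 ^ n : ℂ)⁻¹)‖ ≤ 1 := by
    rw [norm_inv, norm_pow]
    have : (1 : ℝ) ≤ ‖(2 : ℂ)‖ ^ n := one_le_pow₀ (by norm_num)
    exact inv_le_one_of_one_le₀ this
  calc ‖((2 ^ n : ℂ)⁻¹)‖ * nuclearNorm (∑ j ∈ range (2 ^ n),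
      (UX n j).smulRight (JY ε M (ev n j) - JY ε M' (ev n j)))
      ≤ 1 * nuclearNorm (∑ j ∈ range (2 ^ n),
      (UX n j).smulRight (JY ε M (ev n j) - JY ε M' (ev n j))) := by
        gcongr
        exact nuclearNorm_nonneg _
    _ = nuclearNorm (∑ j ∈ range (2 ^ n),
      (UX n j).smulRight (JY ε M (ev n j) - JY ε M' (ev n j))) := one_mul _
    _ ≤ ∑ j ∈ range (2 ^ n), nuclearNorm
      ((UX n j).smulRight (JY ε M (ev n j) - JY ε M' (ev n j))) :=
        nuclearNorm_sum_le _ _ (fun _ _ => isNuclear_smulRight _ _)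
    _ ≤ ∑ j ∈ range (2 ^ n), ‖UX n j‖ * (ε * B) := by
        refine Finset.sum_le_sum (fun j hj => (nuclearNorm_smulRight_le _ _).trans ?_)
        exact mul_le_mul_of_nonneg_left (hJ j hj) (ContinuousLinearMap.opNorm_nonneg _)
    _ = ε * ∑ j ∈ range (2 ^ n), ‖UX n j‖ * B := by
        rw [Finset.mul_sum]
        refine Finset.sum_congr rfl (fun j _ => by ring)

/-- the lower bound for the nuclear norm of `T_{n,n}`: the trace functional. -/
lemma one_le_of_rep {ε : ℝ} (hε : 0 < ε) (n : ℕ) {φ : ℕ → (XX →L[ℂ] ℂ)} {y : ℕ → YY ε}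
    (h : IsNuclearRep (TT ε n n) φ y) : C0⁻¹ ≤ ∑' k, ‖φ k‖ * ‖y k‖ := by
  -- the finite rank traces are equal to one
  have hfin : ∀ N ≥ n, ∑' k, φ k (piN ε N (y k)) = 1 := by
    intro N hN
    have h1 : ∀ k, φ k (piN ε N (y k)) = ∑ m ∈ range (N + 1), ∑ j ∈ range (2 ^ m),
        UX m j (piN ε N (φ k (EX m j) • y k)) := by
      intro k
      conv_lhs => rw [piN_expand hε N (y k)]
      rw [map_sum]
      refine Finset.sum_congr rfl (fun m _ => ?_)
      rw [map_sum]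
      refine Finset.sum_congr rfl (fun j _ => ?_)
      rw [map_smul, map_smul, map_smul, smul_eq_mul, smul_eq_mul, mul_comm]
    have h2 : HasSum (fun k => φ k (piN ε N (y k)))
        (∑ m ∈ range (N + 1), ∑ j ∈ range (2 ^ m), UX m j (piN ε N (TT ε n n (EX m j)))) := by
      simp only [h1]
      refine hasSum_sum (fun m _ => hasSum_sum (fun j _ => ?_))
      exact ((UX m j).comp (piN ε N)).hasSum (h.hasSum_apply (EX m j))
    rw [h2.tsum_eq]
    have h3 : ∀ m ∈ range (N + 1), ∀ j ∈ range (2 ^ m), UX m j (piN ε N (TT ε n n (EX m j)))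
        = if m = n then ((2 ^ n : ℂ)⁻¹) else 0 := by
      intro m hm j hj
      rw [Finset.mem_range] at hm hj
      rw [TT_apply, map_smul, map_smul, smul_eq_mul]
      by_cases hmn : m = n
      · subst hmn
        rw [if_pos rfl]
        rw [Finset.sum_eq_single j]
        · rw [UX_EX hj hj, if_pos ⟨rfl, rfl⟩, one_smul, UX_apply,
            piN_JY hε N m (ev_mem m j hj le_rfl), if_pos hN, U_iot (ev_mem m j hj le_rfl) m j hj]
          simp [ev]
        · intro j' hj' hne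
          rw [UX_EX (Finset.mem_range.1 hj') hj, if_neg (by rintro ⟨_, h⟩; exact hne h), zero_smul]
        · intro hcon
          exact absurd (Finset.mem_range.2 hj) hcon
      · rw [if_neg hmn]
        rw [Finset.sum_eq_zero]
        · simp
        · intro j' hj'
          rw [UX_EX (Finset.mem_range.1 hj') hj, if_neg (by rintro ⟨h, _⟩; exact hmn h.symm), zero_smul]
    rw [Finset.sum_congr rfl (fun m hm => Finset.sum_congr rfl (h3 m hm))]
    rw [Finset.sum_eq_single n]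
    · rw [if_pos rfl, Finset.sum_const, Finset.card_range, nsmul_eq_mul]
      push_cast
      exact mul_inv_cancel₀ (pow_ne_zero _ two_ne_zero)
    · intro m _ hne
      rw [if_neg hne, Finset.sum_const_zero]
    · intro hcon
      exact absurd (Finset.mem_range.2 (by omega)) hcon
  -- passage to the limit
  have hlim : Filter.Tendsto (fun N => ∑' k, φ k (piN ε N (y k))) Filter.atTop
      (nhds (∑' k, φ k (RX ε none (y k)))) := by
    refine tendsto_tsum_of_dominated_convergence (bound := fun k => (C0 * (1 + ε⁻¹)) * (‖φ k‖ * ‖y k‖))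
      (h.summable.mul_left _) (fun k => ?_) (Filter.Eventually.of_forall (fun N k => ?_))
    · have h1 : Filter.Tendsto (fun N => piN ε N (y k)) Filter.atTop (nhds (RX ε none (y k))) := by
        have h2 := (tendsto_RX ε (y k)).const_smul ((ε : ℂ)⁻¹)
        have h3 := h2.const_add (RX ε none (y k))
        simpa [piN_apply] using h3
      exact ((φ k).continuous.tendsto _).comp h1
    · calc ‖φ k (piN ε N (y k))‖ ≤ ‖φ k‖ * ‖piN ε N (y k)‖ := (φ k).le_opNorm _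
        _ ≤ ‖φ k‖ * (C0 * (1 + ε⁻¹) * ‖y k‖) := by
            gcongr
            exact norm_piN_le hε N (y k)
        _ = _ := by ring
  have hone : ∑' k, φ k (RX ε none (y k)) = 1 := by
    refine tendsto_nhds_unique hlim (tendsto_const_nhds.congr' ?_)
    filter_upwards [Filter.eventually_ge_atTop n] with N hN
    exact (hfin N hN).symm
  have hbound : ‖∑' k, φ k (RX ε none (y k))‖ ≤ C0 * ∑' k, ‖φ k‖ * ‖y k‖ := by
    rw [← tsum_mul_left]
    refine tsum_of_norm_bounded (h.summable.mul_left C0).hasSum (fun k => ?_)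
    calc ‖φ k (RX ε none (y k))‖ ≤ ‖φ k‖ * ‖RX ε none (y k)‖ := (φ k).le_opNorm _
      _ ≤ ‖φ k‖ * (C0 * ‖y k‖) := by
          gcongr
          exact norm_RX_le ε none (y k)
      _ = _ := by ring
  rw [hone, norm_one] at hbound
  rw [inv_le_iff_one_le_mul₀ C0_pos]
  linarith

end Pool.Agent.Davie
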