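import Pool.Agent.Lib.MP_91e127_an.Defs

set_option autoImplicit false

namespace Pool.Agent.Nuclear

variable {𝕜 : Type*} [RCLike 𝕜] {X Y : Type*}
  [NormedAddCommGroup X] [NormedSpace 𝕜 X] [NormedAddCommGroup Y] [NormedSpace 𝕜 Y]

lemma repSet_bddBelow (T : X →L[𝕜] Y) :
    BddBelow {r | ∃ φ y, IsNuclearRep T φ y ∧ r = ∑' n, ‖φ n‖ * ‖y n‖} := by
  refine ⟨0, ?_⟩
  rintro r ⟨φ, y, _, rfl⟩
  exact tsum_nonneg (fun n => by positivity)

lemma nuclearNorm_le {T : X →L[𝕜] Y} {φ : ℕ → (X →L[𝕜] 𝕜)} {y : ℕ → Y}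
    (h : IsNuclearRep T φ y) : nuclearNorm T ≤ ∑' n, ‖φ n‖ * ‖y n‖ :=
  csInf_le (repSet_bddBelow T) ⟨φ, y, h, rfl⟩

lemma nuclearNorm_nonneg (T : X →L[𝕜] Y) : 0 ≤ nuclearNorm T := by
  apply Real.sInf_nonneg
  rintro r ⟨φ, y, _, rfl⟩
  exact tsum_nonneg (fun n => by positivity)

lemma le_nuclearNorm {T : X →L[𝕜] Y} (hT : IsNuclear T) {c : ℝ}
    (h : ∀ φ y, IsNuclearRep T φ y → c ≤ ∑' n, ‖φ n‖ * ‖y n‖) : c ≤ nuclearNorm T := by
  obtain ⟨φ, y, hr⟩ := hT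
  refine le_csInf ⟨_, φ, y, hr, rfl⟩ ?_
  rintro r ⟨φ, y, hr, rfl⟩
  exact h φ y hr

lemma exists_rep_lt {T : X →L[𝕜] Y} (hT : IsNuclear T) {c : ℝ} (hc : nuclearNorm T < c) :
    ∃ φ y, IsNuclearRep T φ y ∧ ∑' n, ‖φ n‖ * ‖y n‖ < c := by
  obtain ⟨φ₀, y₀, hr₀⟩ := hT
  obtain ⟨r, ⟨φ, y, hr, rfl⟩, hlt⟩ := exists_lt_of_csInf_lt
    (s := {r | ∃ φ y, IsNuclearRep T φ y ∧ r = ∑' n, ‖φ n‖ * ‖y n‖}) ⟨_, φ₀, y₀, hr₀, rfl⟩ hc
  exact ⟨φ, y, hr, hlt⟩

section complete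
variable [CompleteSpace Y]

lemma IsNuclearRep.summable_apply {T : X →L[𝕜] Y} {φ : ℕ → (X →L[𝕜] 𝕜)} {y : ℕ → Y}
    (h : IsNuclearRep T φ y) (x : X) : Summable (fun n => φ n x • y n) := by
  refine Summable.of_norm_bounded (g := fun n => (‖φ n‖ * ‖y n‖) * ‖x‖)
    (h.summable.mul_right _) (fun n => ?_)
  rw [norm_smul]
  calc ‖φ n x‖ * ‖y n‖ ≤ (‖φ n‖ * ‖x‖) * ‖y n‖ := by
        gcongr
        exact (φ n).le_opNorm x
    _ = ‖φ n‖ * ‖y n‖ * ‖x‖ := by ring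

lemma IsNuclearRep.hasSum_apply {T : X →L[𝕜] Y} {φ : ℕ → (X →L[𝕜] 𝕜)} {y : ℕ → Y}
    (h : IsNuclearRep T φ y) (x : X) : HasSum (fun n => φ n x • y n) (T x) := by
  rw [h.apply_eq x]
  exact (h.summable_apply x).hasSum

/-- interleaving of two sequences -/
def interleave {α : Type*} (a b : ℕ → α) (n : ℕ) : α := if n % 2 = 0 then a (n / 2) else b (n / 2)

lemma interleave_even {α : Type*} (a b : ℕ → α) (k : ℕ) : interleave a b (2 * k) = a k := by
  simp [interleave]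

lemma interleave_odd {α : Type*} (a b : ℕ → α) (k : ℕ) : interleave a b (2 * k + 1) = b k := by
  unfold interleave
  rw [if_neg (by omega)]
  congr 1
  omega

lemma hasSum_interleave {M : Type*} [AddCommMonoid M] [TopologicalSpace M] [ContinuousAdd M]
    {f : ℕ → M} {m m' : M} (he : HasSum (fun k => f (2 * k)) m)
    (ho : HasSum (fun k => f (2 * k + 1)) m') : HasSum f (m + m') := he.even_add_odd ho

lemma rep_add {T S : X →L[𝕜] Y} {φ ψ : ℕ → (X →L[𝕜] 𝕜)} {y z : ℕ → Y}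
    (hT : IsNuclearRep T φ y) (hS : IsNuclearRep S ψ z) :
    IsNuclearRep (T + S) (interleave φ ψ) (interleave y z) ∧
    HasSum (fun n => ‖interleave φ ψ n‖ * ‖interleave y z n‖)
      ((∑' n, ‖φ n‖ * ‖y n‖) + ∑' n, ‖ψ n‖ * ‖z n‖) := by
  have h1 : HasSum (fun n => ‖interleave φ ψ n‖ * ‖interleave y z n‖)
      ((∑' n, ‖φ n‖ * ‖y n‖) + ∑' n, ‖ψ n‖ * ‖z n‖) := by
    apply hasSum_interleave
    · simp only [interleave_even]
      exact hT.summable.hasSum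
    · simp only [interleave_odd]
      exact hS.summable.hasSum
  refine ⟨⟨h1.summable, fun x => ?_⟩, h1⟩
  have h2 : HasSum (fun n => interleave φ ψ n x • interleave y z n) (T x + S x) := by
    apply hasSum_interleave
    · simp only [interleave_even]
      exact hT.hasSum_apply x
    · simp only [interleave_odd]
      exact hS.hasSum_apply x
  rw [h2.tsum_eq]
  rfl

lemma IsNuclear.add {T S : X →L[𝕜] Y} (hT : IsNuclear T) (hS : IsNuclear S) :
    IsNuclear (T + S) := by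
  obtain ⟨φ, y, hT⟩ := hT
  obtain ⟨ψ, z, hS⟩ := hS
  exact ⟨_, _, (rep_add hT hS).1⟩

lemma nuclearNorm_add_le {T S : X →L[𝕜] Y} (hT : IsNuclear T) (hS : IsNuclear S) :
    nuclearNorm (T + S) ≤ nuclearNorm T + nuclearNorm S := by
  apply le_of_forall_pos_le_add
  intro ε hε
  obtain ⟨φ, y, hr, hlt⟩ := exists_rep_lt hT (c := nuclearNorm T + ε / 2) (by linarith)
  obtain ⟨ψ, z, hr', hlt'⟩ := exists_rep_lt hS (c := nuclearNorm S + ε / 2) (by linarith)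
  obtain ⟨h1, h2⟩ := rep_add hr hr'
  have h3 := nuclearNorm_le h1
  rw [h2.tsum_eq] at h3
  linarith

lemma rep_smul {T : X →L[𝕜] Y} {φ : ℕ → (X →L[𝕜] 𝕜)} {y : ℕ → Y}
    (hT : IsNuclearRep T φ y) (c : 𝕜) :
    IsNuclearRep (c • T) (fun n => c • φ n) y ∧
    ∑' n, ‖c • φ n‖ * ‖y n‖ = ‖c‖ * ∑' n, ‖φ n‖ * ‖y n‖ := by
  have h0 : ∀ n, ‖c • φ n‖ * ‖y n‖ = ‖c‖ * (‖φ n‖ * ‖y n‖) := by
    intro n
    rw [norm_smul]
    ring
  refine ⟨⟨?_, fun x => ?_⟩, ?_⟩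
  · simp only [h0]
    exact hT.summable.mul_left _
  · have h1 := (hT.hasSum_apply x).const_smul c
    have h2 : ∀ n, (c • φ n) x • y n = c • (φ n x • y n) := by
      intro n
      rw [smul_apply, smul_assoc]
    simp only [h2]
    rw [h1.tsum_eq]
    rfl
  · simp only [h0]
    exact tsum_mul_left

lemma IsNuclear.smul {T : X →L[𝕜] Y} (hT : IsNuclear T) (c : 𝕜) : IsNuclear (c • T) := by
  obtain ⟨φ, y, hT⟩ := hT
  exact ⟨_, _, (rep_smul hT c).1⟩

lemma nuclearNorm_smul_le {T : X →L[𝕜] Y} (hT : IsNuclear T) (c : 𝕜) :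
    nuclearNorm (c • T) ≤ ‖c‖ * nuclearNorm T := by
  apply le_of_forall_pos_le_add
  intro ε hε
  obtain ⟨φ, y, hr, hlt⟩ := exists_rep_lt hT (c := nuclearNorm T + ε / (‖c‖ + 1))
    (by have : 0 < ε / (‖c‖ + 1) := by positivity
        linarith)
  obtain ⟨h1, h2⟩ := rep_smul hr c
  have h3 := nuclearNorm_le h1
  rw [h2] at h3
  calc nuclearNorm (c • T) ≤ ‖c‖ * ∑' n, ‖φ n‖ * ‖y n‖ := h3
    _ ≤ ‖c‖ * (nuclearNorm T + ε / (‖c‖ + 1)) := by gcongr
    _ = ‖c‖ * nuclearNorm T + ε * (‖c‖ / (‖c‖ + 1)) := by ring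
    _ ≤ ‖c‖ * nuclearNorm T + ε * 1 := by
        gcongr
        rw [div_le_one (by positivity)]
        linarith
    _ = _ := by ring

omit [CompleteSpace Y] in
lemma rep_single (φ : X →L[𝕜] 𝕜) (y : Y) :
    IsNuclearRep (φ.smulRight y) (fun n => if n = 0 then φ else 0) (fun n => if n = 0 then y else 0) ∧
    ∑' n : ℕ, ‖(if n = 0 then φ else 0 : X →L[𝕜] 𝕜)‖ * ‖(if n = 0 then y else 0 : Y)‖ = ‖φ‖ * ‖y‖ := by
  have h1 : HasSum (fun n : ℕ => ‖(if n = 0 then φ else 0 : X →L[𝕜] 𝕜)‖ * ‖(if n = 0 then y else 0 : Y)‖)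
      (‖φ‖ * ‖y‖) := by
    have := hasSum_single (f := fun n : ℕ => ‖(if n = 0 then φ else 0 : X →L[𝕜] 𝕜)‖ * ‖(if n = 0 then y else 0 : Y)‖) 0
      (by intro n hn; simp [hn])
    simpa using this
  refine ⟨⟨h1.summable, fun x => ?_⟩, h1.tsum_eq⟩
  have h2 := hasSum_single (f := fun n : ℕ => (if n = 0 then φ else 0 : X →L[𝕜] 𝕜) x • (if n = 0 then y else 0 : Y)) 0
      (by intro n hn; simp [hn])
  rw [h2.tsum_eq]
  simp

omit [CompleteSpace Y] in
lemma isNuclear_smulRight (φ : X →L[𝕜] 𝕜) (y : Y) : IsNuclear (φ.smulRight y) :=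
  ⟨_, _, (rep_single φ y).1⟩

omit [CompleteSpace Y] in
lemma nuclearNorm_smulRight_le (φ : X →L[𝕜] 𝕜) (y : Y) :
    nuclearNorm (φ.smulRight y) ≤ ‖φ‖ * ‖y‖ := by
  have := nuclearNorm_le (rep_single φ y).1
  rwa [(rep_single φ y).2] at this

lemma isNuclear_zero : IsNuclear (0 : X →L[𝕜] Y) := by
  have := isNuclear_smulRight (0 : X →L[𝕜] 𝕜) (0 : Y)
  have h0 : (0 : X →L[𝕜] 𝕜).smulRight (0 : Y) = 0 := by
    ext x
    simp
  rwa [h0] at this

lemma nuclearNorm_zero : nuclearNorm (0 : X →L[𝕜] Y) = 0 := by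
  have := nuclearNorm_smulRight_le (0 : X →L[𝕜] 𝕜) (0 : Y)
  have h0 : (0 : X →L[𝕜] 𝕜).smulRight (0 : Y) = 0 := by
    ext x
    simp
  rw [h0] at this
  simp only [norm_zero, mul_zero] at this
  exact le_antisymm this (nuclearNorm_nonneg _)

lemma IsNuclear.neg {T : X →L[𝕜] Y} (hT : IsNuclear T) : IsNuclear (-T) := by
  have := hT.smul (-1)
  simpa using this

lemma IsNuclear.sub {T S : X →L[𝕜] Y} (hT : IsNuclear T) (hS : IsNuclear S) :
    IsNuclear (T - S) := by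
  rw [sub_eq_add_neg]
  exact hT.add hS.neg

lemma nuclearNorm_neg_le {T : X →L[𝕜] Y} (hT : IsNuclear T) : nuclearNorm (-T) ≤ nuclearNorm T := by
  have := nuclearNorm_smul_le hT (-1)
  simpa using this

lemma IsNuclear.sum {ι : Type*} (s : Finset ι) (T : ι → X →L[𝕜] Y) (h : ∀ i ∈ s, IsNuclear (T i)) :
    IsNuclear (∑ i ∈ s, T i) := by
  classical
  induction s using Finset.induction_on with
  | empty => simpa using isNuclear_zero
  | insert a s ha ih =>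
    rw [Finset.sum_insert ha]
    exact (h a (Finset.mem_insert_self _ _)).add (ih (fun i hi => h i (Finset.mem_insert_of_mem hi)))

lemma nuclearNorm_sum_le {ι : Type*} (s : Finset ι) (T : ι → X →L[𝕜] Y)
    (h : ∀ i ∈ s, IsNuclear (T i)) :
    nuclearNorm (∑ i ∈ s, T i) ≤ ∑ i ∈ s, nuclearNorm (T i) := by
  classical
  induction s using Finset.induction_on with
  | empty => simp [nuclearNorm_zero]
  | insert a s ha ih =>
    rw [Finset.sum_insert ha, Finset.sum_insert ha]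
    have h1 := nuclearNorm_add_le (h a (Finset.mem_insert_self _ _))
      (IsNuclear.sum s T (fun i hi => h i (Finset.mem_insert_of_mem hi)))
    have h2 := ih (fun i hi => h i (Finset.mem_insert_of_mem hi))
    linarith

/-- removing one term from a representation -/
lemma nuclearNorm_sub_term_le {T : X →L[𝕜] Y} {φ : ℕ → (X →L[𝕜] 𝕜)} {y : ℕ → Y}
    (hT : IsNuclearRep T φ y) (k : ℕ) :
    IsNuclear (T - (φ k).smulRight (y k)) ∧
    nuclearNorm (T - (φ k).smulRight (y k)) ≤ (∑' n, ‖φ n‖ * ‖y n‖) - ‖φ k‖ * ‖y k‖ := by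
  classical
  have h1 : HasSum (fun n => ‖(Function.update φ k 0) n‖ * ‖y n‖)
      ((∑' n, ‖φ n‖ * ‖y n‖) - ‖φ k‖ * ‖y k‖) := by
    have h2 := hT.summable.hasSum.update k 0
    have h3 : (fun n => ‖(Function.update φ k 0) n‖ * ‖y n‖)
        = Function.update (fun n => ‖φ n‖ * ‖y n‖) k 0 := by
      funext n
      by_cases hn : n = k
      · subst hn; simp
      · simp [Function.update_of_ne hn]
    have h2' : (∑' n, ‖φ n‖ * ‖y n‖) - ‖φ k‖ * ‖y k‖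
        = (0 : ℝ) - ‖φ k‖ * ‖y k‖ + ∑' n, ‖φ n‖ * ‖y n‖ := by ring
    rw [h3, h2']
    exact h2
  have h4 : IsNuclearRep (T - (φ k).smulRight (y k)) (Function.update φ k 0) y := by
    refine ⟨h1.summable, fun x => ?_⟩
    have h5 := (hT.hasSum_apply x).update k 0
    have h6 : (fun n => (Function.update φ k 0) n x • y n)
        = Function.update (fun n => φ n x • y n) k 0 := by
      funext n
      by_cases hn : n = k
      · subst hn; simp
      · simp [Function.update_of_ne hn]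
    rw [h6, h5.tsum_eq]
    simp only [sub_apply, ContinuousLinearMap.smulRight_apply]
    abel
  refine ⟨⟨_, _, h4⟩, ?_⟩
  have := nuclearNorm_le h4
  rwa [h1.tsum_eq] at this

end complete

end Pool.Agent.Nuclear
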