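import Mathlib

set_option autoImplicit false

open scoped ENNReal

namespace Pool.Agent.Nuclear

instance fact_one_le_four : Fact ((1 : ℝ≥0∞) ≤ 4) := ⟨by norm_num⟩

lemma toReal_four : (4 : ℝ≥0∞).toReal = 4 := by simp

lemma lp4_hasSum {ι : Type*} (x : lp (fun _ : ι => ℂ) 4) :
    HasSum (fun i => ‖x i‖ ^ 4) (‖x‖ ^ 4) := by
  have h := lp.hasSum_norm (p := 4) (by simp) x
  simp only [toReal_four] at h
  have e : ∀ r : ℝ, r ^ (4 : ℝ) = r ^ 4 := fun r => by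
    rw [show (4 : ℝ) = ((4 : ℕ) : ℝ) by norm_num, Real.rpow_natCast]
  simpa only [e] using h

lemma clarkson_scalar (a b : ℂ) : ‖a + b‖ ^ 4 + ‖a - b‖ ^ 4 ≤ 8 * (‖a‖ ^ 4 + ‖b‖ ^ 4) := by
  have h : ‖a + b‖ ^ 2 + ‖a - b‖ ^ 2 = 2 * (‖a‖ ^ 2 + ‖b‖ ^ 2) := by
    have := parallelogram_law_with_norm ℝ a b
    nlinarith
  have h1 : (‖a + b‖ ^ 2 + ‖a - b‖ ^ 2) ^ 2 = 4 * (‖a‖ ^ 2 + ‖b‖ ^ 2) ^ 2 := by
    rw [h]; ring
  nlinarith [sq_nonneg (‖a‖ ^ 2 - ‖b‖ ^ 2), mul_nonneg (sq_nonneg ‖a + b‖) (sq_nonneg ‖a - b‖)]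

lemma clarkson4 {ι : Type*} (x y : lp (fun _ : ι => ℂ) 4) :
    ‖x + y‖ ^ 4 + ‖x - y‖ ^ 4 ≤ 8 * (‖x‖ ^ 4 + ‖y‖ ^ 4) := by
  have h1 := (lp4_hasSum (x + y)).add (lp4_hasSum (x - y))
  have h2 := ((lp4_hasSum x).add (lp4_hasSum y)).mul_left 8
  refine hasSum_le (fun i => ?_) h1 h2
  simpa using clarkson_scalar (x i) (y i)

/-- A normed space satisfying Clarkson's inequality with exponent four has a smooth dual. -/
theorem dual_smooth_of_clarkson {X : Type*} [NormedAddCommGroup X] [NormedSpace ℂ X]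
    (hC : ∀ x y : X, ‖x + y‖ ^ 4 + ‖x - y‖ ^ 4 ≤ 8 * (‖x‖ ^ 4 + ‖y‖ ^ 4))
    (f h : X →L[ℂ] ℂ) (hf : ‖f‖ = 1) (η : ℝ) (hη : 0 < η) :
    ∃ t : ℝ, 0 < t ∧ ‖f + t • h‖ + ‖f - t • h‖ < 2 + t * η := by
  set H : ℝ := ‖h‖ + 1 with hH
  have hHpos : 0 < H := by positivity
  set κ : ℝ := η / (2 * H) with hκ
  have hκpos : 0 < κ := by positivity
  set t : ℝ := κ ^ 4 / (64 * H) with ht
  have htpos : 0 < t := by positivity
  refine ⟨t, htpos, ?_⟩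
  -- near maximisers
  have hmax : ∀ F : X →L[ℂ] ℂ, ∀ θ : ℝ, 0 < θ → ∃ x : X, ‖x‖ ≤ 1 ∧ ‖F‖ - θ ≤ (F x).re := by
    intro F θ hθ
    obtain ⟨x, hx1, hx2⟩ := F.exists_lt_apply_of_lt_opNorm (r := ‖F‖ - θ) (by linarith)
    obtain ⟨c, hc1, hc2⟩ := Complex.exists_norm_eq_mul_self (F x)
    refine ⟨c • x, ?_, ?_⟩
    · rw [norm_smul, hc1, one_mul]
      exact hx1.le
    · rw [map_smul, smul_eq_mul, ← hc2, Complex.ofReal_re]
      exact hx2.le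
  obtain ⟨x, hx1, hx2⟩ := hmax (f + t • h) (t * η / 8) (by positivity)
  obtain ⟨y, hy1, hy2⟩ := hmax (f - t • h) (t * η / 8) (by positivity)
  have hx3 : ((f + t • h) x).re = (f x).re + t * (h x).re := by
    simp [add_apply, smul_apply]
  have hy3 : ((f - t • h) y).re = (f y).re - t * (h y).re := by
    simp [sub_apply, smul_apply]
  rw [hx3] at hx2
  rw [hy3] at hy2
  have hfxy : (f x).re + (f y).re ≤ ‖x + y‖ := by
    calc (f x).re + (f y).re = (f (x + y)).re := by simp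
      _ ≤ ‖f (x + y)‖ := Complex.re_le_norm _
      _ ≤ ‖f‖ * ‖x + y‖ := f.le_opNorm _
      _ = ‖x + y‖ := by rw [hf, one_mul]
  have hhxy : (h x).re - (h y).re ≤ H * ‖x - y‖ := by
    calc (h x).re - (h y).re = (h (x - y)).re := by simp
      _ ≤ ‖h (x - y)‖ := Complex.re_le_norm _
      _ ≤ ‖h‖ * ‖x - y‖ := h.le_opNorm _
      _ ≤ H * ‖x - y‖ := by
        gcongr
        linarith
  have hsum : ‖f + t • h‖ + ‖f - t • h‖ ≤ ‖x + y‖ + t * (H * ‖x - y‖) + t * η / 4 := by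
    have := mul_le_mul_of_nonneg_left hhxy htpos.le
    nlinarith
  have hxy2 : ‖x + y‖ ≤ 2 := (norm_add_le _ _).trans (by linarith)
  have hxy2' : ‖x - y‖ ≤ 2 := (norm_sub_le _ _).trans (by linarith)
  rcases lt_or_ge ‖x - y‖ κ with hlt | hge
  · have h1 : H * ‖x - y‖ ≤ η / 2 := by
      calc H * ‖x - y‖ ≤ H * κ := by gcongr
        _ = η / 2 := by rw [hκ]; field_simp
    have h2 := mul_le_mul_of_nonneg_left h1 htpos.le
    nlinarith [mul_pos htpos hη]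
  · have h4 : ‖x + y‖ ^ 4 ≤ 16 - κ ^ 4 := by
      have h5 := hC x y
      have h6 : κ ^ 4 ≤ ‖x - y‖ ^ 4 := by gcongr
      have h7 : ‖x‖ ^ 4 ≤ 1 := pow_le_one₀ (norm_nonneg _) hx1
      have h8 : ‖y‖ ^ 4 ≤ 1 := pow_le_one₀ (norm_nonneg _) hy1
      linarith
    have h9 : ‖x + y‖ ≤ 2 - κ ^ 4 / 32 := by
      by_contra hcon
      push Not at hcon
      set s := 2 - ‖x + y‖ with hs
      have hs0 : 0 ≤ s := by linarith
      have hs2 : s ≤ 2 := by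
        have := norm_nonneg (x + y)
        linarith
      have hsk : s < κ ^ 4 / 32 := by linarith
      have hxs : ‖x + y‖ = 2 - s := by rw [hs]; ring
      rw [hxs] at h4
      have hexp : (2 - s) ^ 4 ≥ 16 - 32 * s := by nlinarith [sq_nonneg s, mul_nonneg hs0 hs0, sq_nonneg (s*(s-4)), mul_nonneg (mul_nonneg hs0 hs0) (by linarith : (0:ℝ) ≤ 2 - s), mul_nonneg (mul_nonneg hs0 hs0) hs0]
      linarith
    have h10 : t * (H * ‖x - y‖) ≤ κ ^ 4 / 32 := by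
      calc t * (H * ‖x - y‖) ≤ t * (H * 2) := by gcongr
        _ = κ ^ 4 / 32 := by rw [ht]; field_simp; norm_num
    nlinarith [mul_pos htpos hη]

end Pool.Agent.Nuclear
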