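import Pool.Agent.Lib.MP_91e127_an.Nuclear

set_option autoImplicit false

namespace Pool.Agent.Nuclear

variable {X Y : Type*}
  [NormedAddCommGroup X] [NormedSpace ℂ X] [NormedAddCommGroup Y] [NormedSpace ℂ Y]
  [CompleteSpace Y]

lemma nuclearNorm_real_smul {T : X →L[ℂ] Y} (hT : IsNuclear T) (c : ℝ) (hc : 0 < c) :
    nuclearNorm (c • T) = c * nuclearNorm T := by
  have h0 : ∀ (c : ℝ) (T : X →L[ℂ] Y), c • T = (c : ℂ) • T := by
    intro c T
    ext x
    simp
  apply le_antisymm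
  · have := nuclearNorm_smul_le hT (c : ℂ)
    rw [h0]
    simpa [abs_of_pos hc] using this
  · have h1 : IsNuclear (c • T) := by rw [h0]; exact hT.smul _
    have h2 := nuclearNorm_smul_le h1 ((c⁻¹ : ℝ) : ℂ)
    rw [← h0, smul_smul, inv_mul_cancel₀ hc.ne', one_smul] at h2
    have h3 : ‖((c⁻¹ : ℝ) : ℂ)‖ = c⁻¹ := by
      rw [Complex.norm_real, Real.norm_of_nonneg (by positivity)]
    rw [h3] at h2
    rw [inv_mul_eq_div, le_div_iff₀ hc] at h2
    linarith

variable (X Y) in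
/-- nuclear operators as a real vector space -/
def nuclearSub : Submodule ℝ (X →L[ℂ] Y) where
  carrier := {T | IsNuclear T}
  zero_mem' := isNuclear_zero
  add_mem' := fun hT hS => IsNuclear.add hT hS
  smul_mem' := by
    intro c T hT
    have h0 : c • T = (c : ℂ) • T := by
      ext x
      simp
    show IsNuclear (c • T)
    rw [h0]
    exact hT.smul _

lemma exists_support (S : X →L[ℂ] Y) (hS : IsNuclear S) :
    ∃ g : nuclearSub X Y →ₗ[ℝ] ℝ, g ⟨S, hS⟩ = nuclearNorm S ∧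
      ∀ T, g T ≤ nuclearNorm (T : X →L[ℂ] Y) := by
  by_cases h0 : S = 0
  · subst h0
    exact ⟨0, by simp [nuclearNorm_zero], fun T => by simpa using nuclearNorm_nonneg _⟩
  have hS0 : (⟨S, hS⟩ : nuclearSub X Y) ≠ 0 := by
    intro h
    exact h0 (congrArg Subtype.val h)
  set f : (nuclearSub X Y) →ₗ.[ℝ] ℝ := LinearPMap.mkSpanSingleton (⟨S, hS⟩ : nuclearSub X Y) (nuclearNorm S) hS0 with hf
  obtain ⟨g, hg1, hg2⟩ := exists_extension_of_le_sublinear f
    (fun T => nuclearNorm (T : X →L[ℂ] Y))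
    (fun c hc T => nuclearNorm_real_smul T.2 c hc)
    (fun T T' => nuclearNorm_add_le T.2 T'.2)
    (by
      rintro ⟨x, hx⟩
      rw [hf, LinearPMap.domain_mkSpanSingleton] at hx
      obtain ⟨c, rfl⟩ := Submodule.mem_span_singleton.1 hx
      have h1 : f ⟨c • (⟨S, hS⟩ : nuclearSub X Y), hx⟩ = c • nuclearNorm S :=
        LinearPMap.mkSpanSingleton'_apply _ _ _ _ _
      rw [h1]
      rcases lt_trichotomy c 0 with hc | hc | hc
      · have : c • nuclearNorm S ≤ 0 := by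
          rw [smul_eq_mul]
          exact mul_nonpos_of_nonpos_of_nonneg hc.le (nuclearNorm_nonneg _)
        exact this.trans (nuclearNorm_nonneg _)
      · subst hc
        simp only [zero_smul]
        exact nuclearNorm_nonneg _
      · exact (nuclearNorm_real_smul hS c hc).symm.le)
  refine ⟨g, ?_, hg2⟩
  have hmem : (⟨S, hS⟩ : nuclearSub X Y) ∈ f.domain := by
    rw [hf, LinearPMap.domain_mkSpanSingleton]
    exact Submodule.mem_span_singleton_self _
  have h2 := hg1 ⟨⟨S, hS⟩, hmem⟩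
  rw [h2]
  have h3 : f ⟨(1 : ℝ) • (⟨S, hS⟩ : nuclearSub X Y), by rw [one_smul]; exact hmem⟩
      = (1 : ℝ) • nuclearNorm S :=
    LinearPMap.mkSpanSingleton'_apply _ _ _ _ _
  simp only [one_smul] at h3
  exact h3

/-- rank-one operators as elements of `nuclearSub` -/
noncomputable def rk (φ : X →L[ℂ] ℂ) (y : Y) : nuclearSub X Y :=
  ⟨φ.smulRight y, isNuclear_smulRight φ y⟩

lemma g_rk_le (g : nuclearSub X Y →ₗ[ℝ] ℝ) (hg : ∀ T, g T ≤ nuclearNorm (T : X →L[ℂ] Y))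
    (φ : X →L[ℂ] ℂ) (y : Y) : g (rk φ y) ≤ ‖φ‖ * ‖y‖ :=
  (hg _).trans (nuclearNorm_smulRight_le φ y)

/-- The key lemma: a functional supporting an operator which attains its nuclear norm kills
all rank-one operators with second factor in a large subspace. -/
theorem support_kills
    {ι : Type*} (F : ι → Submodule ℝ Y)
    (hP : ∀ y₀ : Y, ‖y₀‖ = 1 → ∃ i, ∀ u ∈ F i, ‖u‖ ≤ 1 / 2 → ‖y₀ + u‖ ≤ 1)
    (hSm : ∀ f h : X →L[ℂ] ℂ, ‖f‖ = 1 → ∀ η : ℝ, 0 < η → ∃ t : ℝ, 0 < t ∧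
      ‖f + t • h‖ + ‖f - t • h‖ < 2 + t * η)
    (S : X →L[ℂ] Y) (hatt : AttainsNuclearNorm S) (hpos : 0 < nuclearNorm S) :
    ∃ g : nuclearSub X Y →ₗ[ℝ] ℝ, (∀ T, g T ≤ nuclearNorm (T : X →L[ℂ] Y)) ∧
      (∃ hS : IsNuclear S, g ⟨S, hS⟩ = nuclearNorm S) ∧
      ∃ i, ∀ h : X →L[ℂ] ℂ, ∀ u ∈ F i, g (rk h u) = 0 := by
  obtain ⟨φ, y, hr, hsum⟩ := hatt
  have hS : IsNuclear S := ⟨φ, y, hr⟩
  obtain ⟨g, hg1, hg2⟩ := exists_support S hS
  refine ⟨g, hg2, ⟨hS, hg1⟩, ?_⟩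
  -- each term is attained
  have hterm : ∀ k, g (rk (φ k) (y k)) = ‖φ k‖ * ‖y k‖ := by
    intro k
    apply le_antisymm (g_rk_le g hg2 _ _)
    obtain ⟨h1, h2⟩ := nuclearNorm_sub_term_le hr k
    have h3 : (⟨S, hS⟩ : nuclearSub X Y) = rk (φ k) (y k) + ⟨S - (φ k).smulRight (y k), h1⟩ := by
      apply Subtype.ext
      simp [rk]
    have h4 : g ⟨S, hS⟩ = g (rk (φ k) (y k)) + g ⟨S - (φ k).smulRight (y k), h1⟩ := by
      rw [← map_add, ← h3]
    have h5 := hg2 ⟨S - (φ k).smulRight (y k), h1⟩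
    simp only at h5
    rw [hg1, hsum] at h4
    linarith
  -- a nonzero term
  have hex : ∃ k, ‖φ k‖ * ‖y k‖ ≠ 0 := by
    by_contra hcon
    push Not at hcon
    have : ∑' n, ‖φ n‖ * ‖y n‖ = 0 := by
      simp [hcon]
    rw [hsum, this] at hpos
    exact lt_irrefl _ hpos
  obtain ⟨k, hk⟩ := hex
  have hφ : ‖φ k‖ ≠ 0 := left_ne_zero_of_mul hk
  have hy : ‖y k‖ ≠ 0 := right_ne_zero_of_mul hk
  have hφp : 0 < ‖φ k‖ := lt_of_le_of_ne (norm_nonneg _) hφ.symm
  have hyp : 0 < ‖y k‖ := lt_of_le_of_ne (norm_nonneg _) hy.symm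
  set f : X →L[ℂ] ℂ := (‖φ k‖⁻¹ : ℝ) • φ k with hf
  set y₀ : Y := (‖y k‖⁻¹ : ℝ) • y k with hy₀
  have hfn : ‖f‖ = 1 := by
    rw [hf, norm_smul, Real.norm_of_nonneg (by positivity), inv_mul_cancel₀ hφ]
  have hyn : ‖y₀‖ = 1 := by
    rw [hy₀, norm_smul, Real.norm_of_nonneg (by positivity), inv_mul_cancel₀ hy]
  have hfy : g (rk f y₀) = 1 := by
    have h1 : rk f y₀ = ((‖φ k‖⁻¹ * ‖y k‖⁻¹ : ℝ)) • rk (φ k) (y k) := by
      apply Subtype.ext
      ext x
      simp only [rk, hf, hy₀, ContinuousLinearMap.smulRight_apply, smul_apply,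
        Submodule.coe_smul, Complex.real_smul]
      module
    rw [h1, map_smul, hterm k, smul_eq_mul]
    field_simp
  obtain ⟨i, hi⟩ := hP y₀ hyn
  refine ⟨i, fun h u hu => ?_⟩
  -- positive values are impossible
  have hmain : ∀ v ∈ F i, ‖v‖ ≤ 1 / 2 → g (rk h v) ≤ 0 := by
    intro v hv hvn
    by_contra hcon
    push Not at hcon
    obtain ⟨t, ht, hlt⟩ := hSm f h hfn (2 * g (rk h v)) (by linarith)
    have h1 : rk (f + t • h) (y₀ + v) + rk (f - t • h) (y₀ - v)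
        = (2 : ℝ) • rk f y₀ + (2 * t : ℝ) • rk h v := by
      apply Subtype.ext
      ext x
      simp only [rk, ContinuousLinearMap.smulRight_apply, smul_apply, add_apply, sub_apply,
        Submodule.coe_smul, Submodule.coe_add, Complex.real_smul]
      module
    have h2 := congrArg g h1
    rw [map_add, map_add, map_smul, map_smul, hfy, smul_eq_mul, smul_eq_mul] at h2
    have h3 := g_rk_le g hg2 (f + t • h) (y₀ + v)
    have h4 := g_rk_le g hg2 (f - t • h) (y₀ - v)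
    have h5 : ‖y₀ + v‖ ≤ 1 := hi v hv hvn
    have h6 : ‖y₀ - v‖ ≤ 1 := by
      rw [sub_eq_add_neg]
      exact hi (-v) (Submodule.neg_mem _ hv) (by rwa [norm_neg])
    have h7 : ‖f + t • h‖ * ‖y₀ + v‖ ≤ ‖f + t • h‖ := mul_le_of_le_one_right (norm_nonneg _) h5
    have h8 : ‖f - t • h‖ * ‖y₀ - v‖ ≤ ‖f - t • h‖ := mul_le_of_le_one_right (norm_nonneg _) h6
    nlinarith
  -- scaling
  have hscale : ∀ v ∈ F i, g (rk h v) ≤ 0 := by
    intro v hv
    set c : ℝ := (2 * (‖v‖ + 1))⁻¹ with hc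
    have hcpos : 0 < c := by positivity
    have h1 : rk h (c • v) = c • rk h v := by
      apply Subtype.ext
      ext x
      simp only [rk, ContinuousLinearMap.smulRight_apply, smul_apply, Submodule.coe_smul]
      module
    have h2 := hmain (c • v) (Submodule.smul_mem _ _ hv) (by
      rw [norm_smul, Real.norm_of_nonneg hcpos.le, hc, inv_mul_le_iff₀ (by positivity)]
      linarith [norm_nonneg v])
    rw [h1, map_smul, smul_eq_mul] at h2
    by_contra hcon
    push Not at hcon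
    have := mul_pos hcpos hcon
    linarith
  have hneg : rk h (-u) = - rk h u := by
    apply Subtype.ext
    ext x
    simp [rk]
  have h1 := hscale u hu
  have h2 := hscale (-u) (Submodule.neg_mem _ hu)
  rw [hneg, map_neg] at h2
  linarith

end Pool.Agent.Nuclear
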