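import Pool.Agent.Lib.MP_91e127_an.Core
import Pool.Agent.Lib.MP_91e127_an.Support
import Pool.Agent.Lib.MP_91e127_an.Smooth

set_option autoImplicit false

open Finset
open scoped ENNReal

namespace Pool.Agent.Davie

/-- `rr = 2^{-1/8}` -/
noncomputable def rr : ℝ := (1 / 2 : ℝ) ^ (1 / 8 : ℝ)

lemma rr_pos : 0 < rr := Real.rpow_pos_of_pos (by norm_num) _

lemma rr_pow_eight : rr ^ 8 = 1 / 2 := by
  unfold rr
  rw [← Real.rpow_natCast, ← Real.rpow_mul (by norm_num)]
  norm_num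

lemma rr_lt_one : rr < 1 := Real.rpow_lt_one (by norm_num) (by norm_num) (by norm_num)

lemma rr_pow_mul (n : ℕ) : rr ^ (8 * n) = (2 ^ n)⁻¹ := by
  rw [pow_mul, rr_pow_eight, one_div, inv_pow]

lemma sqrt_two_pow (n : ℕ) : (Real.sqrt (2 ^ n))⁻¹ = rr ^ (4 * n) := by
  have h1 : (rr ^ (4 * n))⁻¹ = Real.sqrt (2 ^ n) := by
    symm
    rw [Real.sqrt_eq_iff_mul_self_eq (by positivity) (by have := rr_pos; positivity)]
    rw [← mul_inv, ← pow_add, show 4 * n + 4 * n = 8 * n by ring, rr_pow_mul, inv_inv]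
  rw [← h1, inv_inv]

/-- weights -/
noncomputable def om (g : Gam) : ℝ := rr ^ (3 * g.1)

lemma om_pos (g : Gam) : 0 < om g := pow_pos rr_pos _

lemma om_summable : Summable (fun g : Gam => om g ^ 4) := by
  rw [summable_sigma_of_nonneg (fun g => by have := om_pos g; positivity)]
  refine ⟨fun n => (hasSum_fintype _).summable, ?_⟩
  have h1 : ∀ n : ℕ, ∑' p : Fin 3 × Fin (2 ^ n), om ⟨n, p⟩ ^ 4 = 3 * (rr ^ 4) ^ n := by
    intro n
    rw [tsum_fintype]
    simp only [om]
    rw [Finset.sum_const, Finset.card_univ, Fintype.card_prod, Fintype.card_fin, Fintype.card_fin,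
      nsmul_eq_mul]
    push_cast
    have h2 : (2 : ℝ) ^ n = (rr ^ (8 * n))⁻¹ := by rw [rr_pow_mul, inv_inv]
    have h3 : rr ^ (8 * n) ≠ 0 := by have := rr_pos; positivity
    rw [h2]
    field_simp
    rw [← pow_mul, ← pow_mul, ← pow_add]
    congr 1
    ring
  simp only [h1]
  refine (summable_geometric_of_lt_one (by have := rr_pos; positivity) ?_).mul_left 3
  exact pow_lt_one₀ rr_pos.le rr_lt_one (by norm_num)

noncomputable abbrev L4 := lp (fun _ : Gam => ℂ) 4
noncomputable abbrev Li := lp (fun _ : Option ℕ × Gam => ℂ) ∞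

/-- constant bounding the maps `R c`. -/
noncomputable def C0 : ℝ := 1 + ∑' g : Gam, om g ^ 4

lemma C0_ge_one : 1 ≤ C0 := by
  have : 0 ≤ ∑' g : Gam, om g ^ 4 := tsum_nonneg (fun g => by have := om_pos g; positivity)
  unfold C0
  linarith

lemma C0_pos : 0 < C0 := lt_of_lt_of_le one_pos C0_ge_one

lemma tsum_om_le : ∑' g : Gam, om g ^ 4 ≤ C0 ^ 4 := by
  have h1 : ∑' g : Gam, om g ^ 4 ≤ C0 := by unfold C0; linarith
  exact h1.trans (le_self_pow₀ C0_ge_one (by norm_num))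

lemma R_summable (c : Option ℕ) (y : Li) : Summable (fun g : Gam => ‖(om g : ℂ) * y (c, g)‖ ^ 4) := by
  refine Summable.of_nonneg_of_le (fun g => by positivity) (fun g => ?_)
    (om_summable.mul_right (‖y‖ ^ 4))
  rw [norm_mul, Complex.norm_real, Real.norm_of_nonneg (om_pos g).le, mul_pow]
  have := lp.norm_apply_le_norm ENNReal.top_ne_zero y (c, g)
  have h0 := om_pos g
  gcongr

lemma memℓp_four_of_summable {f : Gam → ℂ} (h : Summable (fun g => ‖f g‖ ^ 4)) :
    Memℓp f 4 := by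
  apply memℓp_gen
  have e : ∀ r : ℝ, r ^ (4 : ℝ) = r ^ 4 := fun r => by
    rw [show (4 : ℝ) = ((4 : ℕ) : ℝ) by norm_num, Real.rpow_natCast]
  simpa only [Pool.Agent.Nuclear.toReal_four, e] using h

/-- the maps `R c : Li → L4` -/
noncomputable def R (c : Option ℕ) : Li →L[ℂ] L4 :=
  LinearMap.mkContinuous
    { toFun := fun y => ⟨fun g => (om g : ℂ) * y (c, g), memℓp_four_of_summable (R_summable c y)⟩
      map_add' := by
        intro y z
        ext g
        show (om g : ℂ) * (y + z : Li) (c, g) = (om g : ℂ) * y (c, g) + (om g : ℂ) * z (c, g)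
        rw [lp.coeFn_add, Pi.add_apply]
        ring
      map_smul' := by
        intro a y
        ext g
        show (om g : ℂ) * (a • y : Li) (c, g) = a * ((om g : ℂ) * y (c, g))
        rw [lp.coeFn_smul, Pi.smul_apply, smul_eq_mul]
        ring }
    C0 (by
      intro y
      have h1 := (Pool.Agent.Nuclear.lp4_hasSum
        (⟨fun g => (om g : ℂ) * y (c, g), memℓp_four_of_summable (R_summable c y)⟩ : L4))
      have h2 : HasSum (fun g : Gam => om g ^ 4 * ‖y‖ ^ 4) ((∑' g : Gam, om g ^ 4) * ‖y‖ ^ 4) :=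
        om_summable.hasSum.mul_right _
      have h3 := hasSum_le (fun g => by
        show ‖(om g : ℂ) * y (c, g)‖ ^ 4 ≤ om g ^ 4 * ‖y‖ ^ 4
        rw [norm_mul, Complex.norm_real, Real.norm_of_nonneg (om_pos g).le, mul_pow]
        have := lp.norm_apply_le_norm ENNReal.top_ne_zero y (c, g)
        have h0 := om_pos g
        gcongr) h1 h2
      have h4 := h3.trans (mul_le_mul_of_nonneg_right tsum_om_le (by positivity : 0 ≤ ‖y‖ ^ 4))
      rw [← mul_pow] at h4
      exact le_of_pow_le_pow_left₀ (by norm_num) (mul_nonneg C0_pos.le (norm_nonneg _)) h4)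

lemma R_apply (c : Option ℕ) (y : Li) (g : Gam) : (R c y) g = (om g : ℂ) * y (c, g) := rfl

lemma norm_R_le (c : Option ℕ) (y : Li) : ‖R c y‖ ≤ C0 * ‖y‖ :=
  LinearMap.mkContinuous_norm_le _ C0_pos.le _ |> fun h =>
    (ContinuousLinearMap.le_opNorm _ _).trans (mul_le_mul_of_nonneg_right h (norm_nonneg _))

/-- coordinate functionals on `L4` -/
noncomputable def D (g : Gam) : L4 →L[ℂ] ℂ := ((om g)⁻¹ : ℂ) • lp.evalCLM ℂ (fun _ : Gam => ℂ) 4 g

lemma D_apply (g : Gam) (x : L4) : D g x = ((om g)⁻¹ : ℂ) * x g := rfl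

lemma norm_D_le (g : Gam) : ‖D g‖ ≤ (om g)⁻¹ := by
  refine ContinuousLinearMap.opNorm_le_bound _ (inv_nonneg.2 (om_pos g).le) (fun x => ?_)
  rw [D_apply, norm_mul, ← Complex.ofReal_inv, Complex.norm_real,
    Real.norm_of_nonneg (inv_nonneg.2 (om_pos g).le)]
  gcongr
  · exact inv_nonneg.2 (om_pos g).le
  · exact lp.norm_apply_le_norm (by norm_num) x g

/-- the functional `v ↦ v n j` expressed via level `n` coordinates -/
noncomputable def U (n j : ℕ) : L4 →L[ℂ] ℂ :=
  (1 / 3 : ℂ) • ∑ a : Fin 3, ∑ y : Fin (2 ^ n), bb n a y j • D ⟨n, a, y⟩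

/-- the functional `v ↦ v (n+1) (2x+s)` expressed via level `n` coordinates -/
noncomputable def Dn (n x s : ℕ) : L4 →L[ℂ] ℂ :=
  (1 / 3 : ℂ) • ∑ a : Fin 3, mm a s • ∑ y : Fin (2 ^ n), bb n a y x • D ⟨n, a, y⟩

lemma U_apply (n j : ℕ) (z : L4) :
    U n j z = (1 / 3 : ℂ) * ∑ a : Fin 3, ∑ y : Fin (2 ^ n), bb n a y j * D ⟨n, a, y⟩ z := by
  simp [U, smul_apply, _root_.sum_apply]

lemma Dn_apply (n x s : ℕ) (z : L4) :
    Dn n x s z = (1 / 3 : ℂ) * ∑ a : Fin 3, mm a s * ∑ y : Fin (2 ^ n), bb n a y x * D ⟨n, a, y⟩ z := by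
  simp [Dn, smul_apply, _root_.sum_apply]

/-- the space `X` -/
noncomputable def XX : Submodule ℂ L4 where
  carrier := {z | ∀ n x s : ℕ, x < 2 ^ n → s < 2 → U (n + 1) (2 * x + s) z = Dn n x s z}
  zero_mem' := by
    intro n x s _ _
    simp
  add_mem' := by
    intro z w hz hw n x s hx hs
    rw [map_add, map_add, hz n x s hx hs, hw n x s hx hs]
  smul_mem' := by
    intro c z hz n x s hx hs
    rw [map_smul, map_smul, hz n x s hx hs]

lemma mem_XX (z : L4) : z ∈ XX ↔
    ∀ n x s : ℕ, x < 2 ^ n → s < 2 → U (n + 1) (2 * x + s) z = Dn n x s z := Iff.rfl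

lemma isClosed_XX : IsClosed (XX : Set L4) := by
  have : (XX : Set L4) = ⋂ (n : ℕ) (x : ℕ) (s : ℕ) (_ : x < 2 ^ n) (_ : s < 2),
      {z | U (n + 1) (2 * x + s) z = Dn n x s z} := by
    ext z
    simp only [SetLike.mem_coe, mem_XX, Set.mem_iInter, Set.mem_ofPred_eq]
  rw [this]
  refine isClosed_iInter (fun n => isClosed_iInter (fun x => isClosed_iInter (fun s =>
    isClosed_iInter (fun _ => isClosed_iInter (fun _ => ?_)))))
  exact isClosed_eq (U _ _).continuous (Dn _ _ _).continuous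

/-- finite support of the coordinates of a finite level vector -/
lemma finite_levels (K : ℕ) : {g : Gam | g.1 ≤ K}.Finite := by
  have : {g : Gam | g.1 ≤ K} ⊆ ((Finset.range (K + 1)).sigma (fun n => (Finset.univ : Finset (Fin 3 × Fin (2 ^ n)))) : Set Gam) := by
    intro g hg
    simp only [Finset.coe_sigma, Set.mem_sigma_iff, Finset.coe_range, Set.mem_Iio, Finset.coe_univ,
      Set.mem_univ, and_true]
    have : g.1 ≤ K := hg
    omega
  exact (Finset.finite_toSet _).subset this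

lemma mem_iot {K : ℕ} {v : Raw} (hv : v ∈ Vle K) :
    Memℓp (fun g : Gam => (om g : ℂ) * del g v) 4 := by
  refine (memℓp_zero ((finite_levels K).subset ?_)).of_exponent_ge (by norm_num)
  intro g hg
  by_contra hcon
  apply hg
  have : K < g.1 := by
    simpa using hcon
  rw [del_eq_zero_of_mem hv g this, mul_zero]

/-- embedding of finite level vectors in `L4` -/
noncomputable def iot (v : Raw) : L4 :=
  open Classical in
  if h : Memℓp (fun g : Gam => (om g : ℂ) * del g v) 4 then ⟨_, h⟩ else 0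

lemma iot_apply {K : ℕ} {v : Raw} (hv : v ∈ Vle K) (g : Gam) :
    iot v g = (om g : ℂ) * del g v := by
  unfold iot
  rw [dif_pos (mem_iot hv)]

lemma D_iot {K : ℕ} {v : Raw} (hv : v ∈ Vle K) (g : Gam) : D g (iot v) = del g v := by
  rw [D_apply, iot_apply hv, ← mul_assoc, inv_mul_cancel₀, one_mul]
  exact_mod_cast (om_pos g).ne'

lemma U_iot {K : ℕ} {v : Raw} (hv : v ∈ Vle K) (n j : ℕ) (hj : j < 2 ^ n) :
    U n j (iot v) = v n j := by
  rw [U_apply]
  simp only [D_iot hv]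
  rw [up_identity n v j hj]
  ring

lemma Dn_iot {K : ℕ} {v : Raw} (hv : v ∈ Vle K) (n x s : ℕ) (hx : x < 2 ^ n) (hs : s < 2) :
    Dn n x s (iot v) = v (n + 1) (2 * x + s) := by
  rw [Dn_apply]
  simp only [D_iot hv]
  rw [down_identity n v x s hx hs]
  ring

lemma iot_mem {K : ℕ} {v : Raw} (hv : v ∈ Vle K) : iot v ∈ XX := by
  intro n x s hx hs
  rw [Dn_iot hv n x s hx hs, U_iot hv]
  rw [pow_succ]
  omega

lemma iot_sum {ι : Type*} {K : ℕ} (s : Finset ι) (c : ι → ℂ) (v : ι → Raw)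
    (hv : ∀ i ∈ s, v i ∈ Vle K) :
    iot (∑ i ∈ s, c i • v i) = ∑ i ∈ s, c i • iot (v i) := by
  ext g
  rw [iot_apply (Submodule.sum_mem _ (fun i hi => Submodule.smul_mem _ _ (hv i hi)))]
  rw [map_sum, Finset.mul_sum]
  rw [lp.coeFn_sum, Finset.sum_apply]
  refine Finset.sum_congr rfl (fun i hi => ?_)
  rw [map_smul, lp.coeFn_smul, Pi.smul_apply, iot_apply (hv i hi), smul_eq_mul, smul_eq_mul]
  ring

end Pool.Agent.Davie
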