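import Pool.Agent.Lib.MP_91e127_an.Spaces

set_option autoImplicit false

open Finset
open scoped ENNReal

namespace Pool.Agent.Davie

/-- coefficients defining the embeddings `J M` -/
noncomputable def cf (ε : ℝ) (M : ℕ) : Option ℕ → ℂ
  | none => 1
  | some k => if k < M then -(ε : ℂ) else 0

lemma norm_cf_le {ε : ℝ} (h0 : 0 < ε) (h1 : ε ≤ 1) (M : ℕ) (c : Option ℕ) : ‖cf ε M c‖ ≤ 1 := by
  cases c with
  | none => simp [cf]
  | some k =>
    simp only [cf]
    split_ifs
    · rw [norm_neg, Complex.norm_real, Real.norm_of_nonneg h0.le]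
      exact h1
    · simp

lemma norm_cf_sub_le {ε : ℝ} (h0 : 0 < ε) (M M' : ℕ) (c : Option ℕ) :
    ‖cf ε M c - cf ε M' c‖ ≤ ε := by
  cases c with
  | none => simp [cf, h0.le]
  | some k =>
    simp only [cf]
    split_ifs
    · simp [h0.le]
    · simp [abs_of_pos h0]
    · simp [abs_of_pos h0]
    · simp [h0.le]

lemma finite_supp_J (ε : ℝ) (M : ℕ) {K : ℕ} {v : Raw} (hv : v ∈ Vle K) :
    {i : Option ℕ × Gam | cf ε M i.1 * del i.2 v ≠ 0}.Finite := by
  have h1 : {i : Option ℕ × Gam | cf ε M i.1 * del i.2 v ≠ 0} ⊆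
      ((insert none ((Finset.range M).image some) : Finset (Option ℕ)) : Set (Option ℕ)) ×ˢ {g : Gam | g.1 ≤ K} := by
    rintro ⟨c, g⟩ hi
    simp only [Set.mem_ofPred_eq, ne_eq, mul_eq_zero, not_or] at hi
    refine ⟨?_, ?_⟩
    · cases c with
      | none => simp
      | some k =>
        simp only [cf] at hi
        have : k < M := by
          by_contra hcon
          rw [if_neg hcon] at hi
          exact hi.1 rfl
        simp [this]
    · by_contra hcon
      simp only [Set.mem_ofPred_eq, not_le] at hcon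
      exact hi.2 (del_eq_zero_of_mem hv g hcon)
  exact ((Finset.finite_toSet _).prod (finite_levels K)).subset h1

lemma mem_J (ε : ℝ) (M : ℕ) {K : ℕ} {v : Raw} (hv : v ∈ Vle K) :
    Memℓp (fun i : Option ℕ × Gam => cf ε M i.1 * del i.2 v) ∞ :=
  (memℓp_zero (finite_supp_J ε M hv)).of_exponent_ge (by simp)

/-- the generating vectors of `Y` -/
def genY (ε : ℝ) : Set Li := {f | ∃ M, ∃ v ∈ Vle M, ∀ i, f i = cf ε M i.1 * del i.2 v}

/-- the space `Y` -/
noncomputable def YY (ε : ℝ) : Submodule ℂ Li := (Submodule.span ℂ (genY ε)).topologicalClosure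

lemma isClosed_YY (ε : ℝ) : IsClosed (YY ε : Set Li) :=
  Submodule.isClosed_topologicalClosure _

lemma genY_subset (ε : ℝ) : genY ε ⊆ (YY ε : Set Li) := fun _ hf =>
  Submodule.le_topologicalClosure _ (Submodule.subset_span hf)

/-- the embedding `J M` of vectors of level at most `M` in `Y` (extended by zero). -/
noncomputable def JY (ε : ℝ) (M : ℕ) (v : Raw) : YY ε :=
  open Classical in
  if h : v ∈ Vle M then
    ⟨⟨fun i => cf ε M i.1 * del i.2 v, mem_J ε M h⟩, genY_subset ε ⟨M, v, h, fun _ => rfl⟩⟩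
  else 0

lemma JY_apply (ε : ℝ) (M : ℕ) {v : Raw} (hv : v ∈ Vle M) (i : Option ℕ × Gam) :
    (JY ε M v : Li) i = cf ε M i.1 * del i.2 v := by
  unfold JY
  rw [dif_pos hv]

/-- image of generating vectors under `R c`. -/
lemma R_gen {ε : ℝ} {M : ℕ} {v : Raw} (hv : v ∈ Vle M) (c : Option ℕ) {f : Li}
    (hf : ∀ i, f i = cf ε M i.1 * del i.2 v) : R c f = cf ε M c • iot v := by
  ext g
  rw [R_apply, hf, lp.coeFn_smul, Pi.smul_apply, iot_apply hv, smul_eq_mul]
  ring

lemma R_mem (ε : ℝ) (c : Option ℕ) (y : Li) (hy : y ∈ YY ε) : R c y ∈ XX := by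
  have h1 : YY ε ≤ XX.comap (R c : Li →ₗ[ℂ] L4) := by
    refine Submodule.topologicalClosure_minimal _ ?_ ?_
    · rw [Submodule.span_le]
      rintro f ⟨M, v, hv, hf⟩
      show R c f ∈ XX
      rw [R_gen hv c hf]
      exact XX.smul_mem _ (iot_mem hv)
    · exact isClosed_XX.preimage (R c).continuous
  exact h1 hy

/-- `R c` as a map from `Y` to `X`. -/
noncomputable def RX (ε : ℝ) (c : Option ℕ) : YY ε →L[ℂ] XX :=
  ((R c).comp (YY ε).subtypeL).codRestrict XX (fun y => R_mem ε c y.1 y.2)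

lemma RX_coe (ε : ℝ) (c : Option ℕ) (y : YY ε) : (RX ε c y : L4) = R c (y : Li) := rfl

lemma norm_RX_le (ε : ℝ) (c : Option ℕ) (y : YY ε) : ‖RX ε c y‖ ≤ C0 * ‖y‖ :=
  norm_R_le c y.1

lemma RX_JY (ε : ℝ) (c : Option ℕ) (M : ℕ) {v : Raw} (hv : v ∈ Vle M) :
    (RX ε c (JY ε M v) : L4) = cf ε M c • iot v := by
  rw [RX_coe]
  exact R_gen hv c (JY_apply ε M hv)

/-- `R (some N) y → 0`. -/
lemma tendsto_RX (ε : ℝ) (y : YY ε) :
    Filter.Tendsto (fun N : ℕ => RX ε (some N) y) Filter.atTop (nhds 0) := by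
  -- zero eventually on the span
  have hspan : ∀ z ∈ Submodule.span ℂ (genY ε), ∃ N₀ : ℕ, ∀ N ≥ N₀, R (some N) z = 0 := by
    intro z hz
    induction hz using Submodule.span_induction with
    | mem f hf =>
      obtain ⟨M, v, hv, hf⟩ := hf
      refine ⟨M, fun N hN => ?_⟩
      rw [R_gen hv _ hf]
      simp only [cf]
      rw [if_neg (by omega), zero_smul]
    | zero => exact ⟨0, fun N _ => by simp⟩
    | add a b _ _ ha hb =>
      obtain ⟨N₁, h1⟩ := ha
      obtain ⟨N₂, h2⟩ := hb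
      refine ⟨max N₁ N₂, fun N hN => ?_⟩
      rw [map_add, h1 N (le_trans (le_max_left _ _) hN), h2 N (le_trans (le_max_right _ _) hN), add_zero]
    | smul c a _ ha =>
      obtain ⟨N₁, h1⟩ := ha
      refine ⟨N₁, fun N hN => ?_⟩
      rw [map_smul, h1 N hN, smul_zero]
  rw [Metric.tendsto_atTop]
  intro δ hδ
  have hy : (y : Li) ∈ closure (Submodule.span ℂ (genY ε) : Set Li) := y.2
  obtain ⟨z, hz, hyz⟩ := Metric.mem_closure_iff.1 hy (δ / C0) (div_pos hδ C0_pos)
  obtain ⟨N₀, hN₀⟩ := hspan z hz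
  refine ⟨N₀, fun N hN => ?_⟩
  rw [dist_zero_right]
  have h1 : (RX ε (some N) y : L4) = R (some N) ((y : Li) - z) := by
    rw [RX_coe, map_sub, hN₀ N hN, sub_zero]
  calc ‖RX ε (some N) y‖ = ‖R (some N) ((y : Li) - z)‖ := by rw [← h1]; rfl
    _ ≤ C0 * ‖(y : Li) - z‖ := norm_R_le _ _
    _ < C0 * (δ / C0) := by
        rw [← dist_eq_norm]
        exact mul_lt_mul_of_pos_left hyz C0_pos
    _ = δ := by
        have := C0_pos
        field_simp

/-- basis vectors of `X`. -/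
noncomputable def EX (m j : ℕ) : XX :=
  open Classical in
  if h : j < 2 ^ m then ⟨iot (ev m j), iot_mem (ev_mem m j h le_rfl)⟩ else 0

lemma EX_coe {m j : ℕ} (h : j < 2 ^ m) : (EX m j : L4) = iot (ev m j) := by
  unfold EX
  rw [dif_pos h]

/-- coordinate functionals on `X`. -/
noncomputable def UX (n j : ℕ) : XX →L[ℂ] ℂ := (U n j).comp XX.subtypeL

noncomputable def DX (g : Gam) : XX →L[ℂ] ℂ := (D g).comp XX.subtypeL

lemma UX_apply (n j : ℕ) (x : XX) : UX n j x = U n j (x : L4) := rfl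
lemma DX_apply (g : Gam) (x : XX) : DX g x = D g (x : L4) := rfl

lemma norm_DX_le (g : Gam) : ‖DX g‖ ≤ (om g)⁻¹ := by
  refine ContinuousLinearMap.opNorm_le_bound _ (inv_nonneg.2 (om_pos g).le) (fun x => ?_)
  rw [DX_apply]
  calc ‖D g (x : L4)‖ ≤ ‖D g‖ * ‖(x : L4)‖ := (D g).le_opNorm _
    _ ≤ (om g)⁻¹ * ‖x‖ := mul_le_mul_of_nonneg_right (norm_D_le g) (norm_nonneg _)

lemma UX_EX {n j m i : ℕ} (hj : j < 2 ^ n) (hi : i < 2 ^ m) :
    UX n j (EX m i) = if n = m ∧ j = i then 1 else 0 := by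
  rw [UX_apply, EX_coe hi, U_iot (ev_mem m i hi le_rfl) n j hj]
  rfl

/-- the finite rank maps `π_N`. -/
noncomputable def piN (ε : ℝ) (N : ℕ) : YY ε →L[ℂ] XX :=
  RX ε none + ((ε : ℂ)⁻¹) • RX ε (some N)

lemma piN_apply (ε : ℝ) (N : ℕ) (y : YY ε) :
    piN ε N y = RX ε none y + ((ε : ℂ)⁻¹) • RX ε (some N) y := rfl

lemma piN_JY {ε : ℝ} (hε : 0 < ε) (N M : ℕ) {v : Raw} (hv : v ∈ Vle M) :
    (piN ε N (JY ε M v) : L4) = if M ≤ N then iot v else 0 := by
  have hε' : (ε : ℂ) ≠ 0 := by exact_mod_cast hε.ne'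
  rw [piN_apply]
  rw [Submodule.coe_add, Submodule.coe_smul, RX_JY ε none M hv, RX_JY ε (some N) M hv]
  simp only [cf]
  by_cases h : N < M
  · rw [if_pos h, if_neg (by omega), smul_smul, ← add_smul]
    rw [mul_neg, inv_mul_cancel₀ hε']
    simp
  · rw [if_neg h, if_pos (by omega)]
    simp

lemma norm_piN_le {ε : ℝ} (hε : 0 < ε) (N : ℕ) (y : YY ε) :
    ‖piN ε N y‖ ≤ C0 * (1 + ε⁻¹) * ‖y‖ := by
  rw [piN_apply]
  refine (norm_add_le _ _).trans ?_
  rw [norm_smul, norm_inv, Complex.norm_real, Real.norm_of_nonneg hε.le]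
  have h1 := norm_RX_le ε none y
  have h2 := norm_RX_le ε (some N) y
  have h3 : ε⁻¹ * ‖RX ε (some N) y‖ ≤ ε⁻¹ * (C0 * ‖y‖) := by gcongr
  linarith

/-- expansion of `π_N y` in the basis -/
lemma piN_expand {ε : ℝ} (hε : 0 < ε) (N : ℕ) (y : YY ε) :
    piN ε N y = ∑ m ∈ range (N + 1), ∑ j ∈ range (2 ^ m), UX m j (piN ε N y) • EX m j := by
  -- work in L4 with the map P = R none + ε⁻¹ R (some N)
  set P : Li →L[ℂ] L4 := R none + ((ε : ℂ)⁻¹) • R (some N) with hP
  have hε' : (ε : ℂ) ≠ 0 := by exact_mod_cast hε.ne'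
  have hPgen : ∀ (M : ℕ) (v : Raw) (_ : v ∈ Vle M) (f : Li), (∀ i, f i = cf ε M i.1 * del i.2 v) →
      P f = if M ≤ N then iot v else 0 := by
    intro M v hv f hf
    rw [hP, add_apply, smul_apply, R_gen hv none hf, R_gen hv (some N) hf]
    simp only [cf]
    by_cases h : N < M
    · rw [if_pos h, if_neg (by omega), smul_smul, ← add_smul, mul_neg, inv_mul_cancel₀ hε']
      simp
    · rw [if_neg h, if_pos (by omega)]
      simp
  set Q : Li →L[ℂ] L4 := ∑ m ∈ range (N + 1), ∑ j ∈ range (2 ^ m),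
    ((U m j).comp P).smulRight (EX m j : L4) with hQ
  have hQapp : ∀ f, Q f = ∑ m ∈ range (N + 1), ∑ j ∈ range (2 ^ m), U m j (P f) • (EX m j : L4) := by
    intro f
    simp [hQ, _root_.sum_apply]
  have hmain : YY ε ≤ (LinearMap.eqLocus (P : Li →ₗ[ℂ] L4) (Q : Li →ₗ[ℂ] L4)) := by
    refine Submodule.topologicalClosure_minimal _ ?_ ?_
    · rw [Submodule.span_le]
      rintro f ⟨M, v, hv, hf⟩
      show P f = Q f
      rw [hQapp, hPgen M v hv f hf]
      by_cases h : M ≤ N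
      · rw [if_pos h]
        have hvN : v ∈ Vle N := Vle_mono h hv
        have h1 : iot v = ∑ m ∈ range (N + 1), ∑ j ∈ range (2 ^ m), v m j • (EX m j : L4) := by
          conv_lhs => rw [eq_sum_ev hvN]
          rw [Finset.sum_sigma', Finset.sum_sigma']
          rw [iot_sum (K := N) _ (fun p : (Σ _ : ℕ, ℕ) => v p.1 p.2) (fun p => ev p.1 p.2)]
          · refine Finset.sum_congr rfl (fun p hp => ?_)
            rw [Finset.mem_sigma, Finset.mem_range, Finset.mem_range] at hp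
            rw [EX_coe hp.2]
          · intro p hp
            rw [Finset.mem_sigma, Finset.mem_range, Finset.mem_range] at hp
            exact ev_mem _ _ hp.2 (by omega)
        conv_lhs => rw [h1]
        refine Finset.sum_congr rfl (fun m _ => Finset.sum_congr rfl (fun j hj => ?_))
        rw [U_iot hvN m j (Finset.mem_range.1 hj)]
      · rw [if_neg h]
        simp
    · exact isClosed_eq P.continuous Q.continuous
  have h2 : P (y : Li) = Q (y : Li) := hmain y.2
  have h3 : (piN ε N y : L4) = P (y : Li) := by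
    rw [piN_apply, Submodule.coe_add, Submodule.coe_smul, RX_coe, RX_coe, hP, add_apply, smul_apply]
  apply Subtype.ext
  rw [h3, h2, hQapp]
  rw [AddSubmonoidClass.coe_finsetSum]
  refine Finset.sum_congr rfl (fun m _ => ?_)
  rw [AddSubmonoidClass.coe_finsetSum]
  refine Finset.sum_congr rfl (fun j _ => ?_)
  rw [Submodule.coe_smul, UX_apply, h3]

end Pool.Agent.Davie
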